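import Pool.Agent.K6.H30.Graph

set_option autoImplicit false
set_option linter.all false

/-!
# Colourings without monochromatic triangle
-/

namespace Pool.Agent.K6.H30.Folk

open Finset Function Pool.Agent.K6.H30.Prob

variable {I L : Type} [Fintype I] [LinearOrder I] [Fintype L] [DecidableEq L] [Inhabited L]

/-- Admissible pairs of petals. -/
def vp (b c : I) (α β : L × I) : ℝ :=
  if α.2 ≠ b ∧ α.2 ≠ c ∧ β.2 ≠ b ∧ β.2 ≠ c ∧ α ≠ β then 1 else 0

/-- The product of the indicators of the two lines of a petal. -/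
noncomputable def Yr (x : Sym2 (I × (Sym2 I → L)) → Bool) (g : Sym2 I → L) (b c : I) (α : L × I) : ℝ :=
  X x (ln b α.2 (update g s(b, c) α.1)) * X x (ln c α.2 (update g s(b, c) α.1))

/-- The product of the indicators of the two additional lines. -/
noncomputable def Er (x : Sym2 (I × (Sym2 I → L)) → Bool) (g : Sym2 I → L) (b c : I) (α β : L × I)
    (ξ : L) : ℝ :=
  X x (ln b α.2 (update (update g s(b, c) α.1) s(α.2, β.2) ξ)) *
    X x (ln b β.2 (update (update g s(b, c) β.1) s(α.2, β.2) ξ))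

/-- The number of the conflicts at the line `(b, c)` of the block `g`. -/
noncomputable def cf (x : Sym2 (I × (Sym2 I → L)) → Bool) (g : Sym2 I → L) (b c : I) : ℝ :=
  ∑ α : L × I, ∑ β : L × I, vp b c α β * (Yr x g b c α * Yr x g b c β *
    ((if α.1 = β.1 ∨ α.2 = β.2 then 1 else 0) +
      (if α.2 ≠ β.2 then ∑ ξ : L, (if ξ ≠ g s(α.2, β.2) then Er x g b c α β ξ else 0) else 0)))

lemma vp_nonneg (b c : I) (α β : L × I) : 0 ≤ vp b c α β := by unfold vp; split_ifs <;> norm_num

lemma Yr_nonneg (x : Sym2 (I × (Sym2 I → L)) → Bool) (g : Sym2 I → L) (b c : I) (α : L × I) :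
    0 ≤ Yr x g b c α := mul_nonneg (X_nonneg _ _) (X_nonneg _ _)

lemma Er_nonneg (x : Sym2 (I × (Sym2 I → L)) → Bool) (g : Sym2 I → L) (b c : I) (α β : L × I) (ξ : L) :
    0 ≤ Er x g b c α β ξ := mul_nonneg (X_nonneg _ _) (X_nonneg _ _)

lemma cf_term_nonneg (x : Sym2 (I × (Sym2 I → L)) → Bool) (g : Sym2 I → L) (b c : I) (α β : L × I) :
    0 ≤ vp b c α β * (Yr x g b c α * Yr x g b c β *
    ((if α.1 = β.1 ∨ α.2 = β.2 then 1 else 0) +
      (if α.2 ≠ β.2 then ∑ ξ : L, (if ξ ≠ g s(α.2, β.2) then Er x g b c α β ξ else 0) else 0))) := by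
  apply mul_nonneg (vp_nonneg _ _ _ _)
  apply mul_nonneg (mul_nonneg (Yr_nonneg _ _ _ _ _) (Yr_nonneg _ _ _ _ _))
  apply add_nonneg
  · split_ifs <;> norm_num
  · split_ifs
    · apply sum_nonneg
      intro ξ _
      split_ifs
      · exact Er_nonneg _ _ _ _ _ _ _
      · exact le_rfl
    · exact le_rfl

lemma cf_nonneg (x : Sym2 (I × (Sym2 I → L)) → Bool) (g : Sym2 I → L) (b c : I) : 0 ≤ cf x g b c :=
  sum_nonneg fun α _ => sum_nonneg fun β _ => cf_term_nonneg x g b c α β

lemma one_le_cf {x : Sym2 (I × (Sym2 I → L)) → Bool} {g : Sym2 I → L} {b c : I}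
    (h : Bd0 x g b c) : 1 ≤ cf x g b c := by
  obtain ⟨α, β, hv, hα, hβ, h⟩ := h
  have h1 : vp b c α β * (Yr x g b c α * Yr x g b c β *
    ((if α.1 = β.1 ∨ α.2 = β.2 then 1 else 0) +
      (if α.2 ≠ β.2 then ∑ ξ : L, (if ξ ≠ g s(α.2, β.2) then Er x g b c α β ξ else 0) else 0))) ≤
      cf x g b c := by
    refine le_trans ?_ (single_le_sum (f := fun α => ∑ β : L × I, vp b c α β * (Yr x g b c α * Yr x g b c β *
    ((if α.1 = β.1 ∨ α.2 = β.2 then 1 else 0) +
      (if α.2 ≠ β.2 then ∑ ξ : L, (if ξ ≠ g s(α.2, β.2) then Er x g b c α β ξ else 0) else 0))))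
      (fun α _ => sum_nonneg fun β _ => cf_term_nonneg x g b c α β) (mem_univ α))
    exact single_le_sum (f := fun β => vp b c α β * (Yr x g b c α * Yr x g b c β *
    ((if α.1 = β.1 ∨ α.2 = β.2 then 1 else 0) +
      (if α.2 ≠ β.2 then ∑ ξ : L, (if ξ ≠ g s(α.2, β.2) then Er x g b c α β ξ else 0) else 0))))
      (fun β _ => cf_term_nonneg x g b c α β) (mem_univ β)
  refine le_trans ?_ h1
  have e1 : vp b c α β = 1 := by unfold vp; rw [if_pos hv]
  have e2 : Yr x g b c α = 1 := by unfold Yr; rw [X_true hα.1, X_true hα.2, mul_one]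
  have e3 : Yr x g b c β = 1 := by unfold Yr; rw [X_true hβ.1, X_true hβ.2, mul_one]
  rw [e1, e2, e3, one_mul, one_mul, one_mul]
  have hn1 : (0 : ℝ) ≤ (if α.1 = β.1 ∨ α.2 = β.2 then 1 else 0) := by split_ifs <;> norm_num
  have hn2 : (0 : ℝ) ≤ (if α.2 ≠ β.2 then ∑ ξ : L, (if ξ ≠ g s(α.2, β.2) then Er x g b c α β ξ else 0) else 0) := by
    split_ifs
    · apply sum_nonneg
      intro ξ _
      split_ifs
      · exact Er_nonneg _ _ _ _ _ _ _
      · exact le_rfl
    · exact le_rfl
  rcases h with h | ⟨h2, ξ, hξ, hE⟩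
  · rw [if_pos h]
    linarith
  · rw [if_pos h2] at hn2 ⊢
    have h3 : 1 ≤ ∑ ξ : L, (if ξ ≠ g s(α.2, β.2) then Er x g b c α β ξ else 0) := by
      have h4 := single_le_sum (f := fun ξ : L => (if ξ ≠ g s(α.2, β.2) then Er x g b c α β ξ else 0))
        (fun ξ _ => by
          split_ifs
          · exact Er_nonneg _ _ _ _ _ _ _
          · exact le_rfl) (mem_univ ξ)
      refine le_trans ?_ h4
      simp only [if_pos hξ]
      unfold Er
      rw [X_true hE.1, X_true hE.2, mul_one]
    linarith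

/-- The conflicts at the chosen triangles. -/
noncomputable def KC (x : Sym2 (I × (Sym2 I → L)) → Bool) : ℝ :=
  ∑ g : Sym2 I → L, ∑ b, ∑ c, ∑ a, d3 b c a * (X x (ln b c g) * X x (ln b a g) * X x (ln c a g) *
    cf x g b c)

lemma rot (F : I → I → I → ℝ) : ∑ i, ∑ j, ∑ k, F j k i = ∑ i, ∑ j, ∑ k, F i j k := by
  rw [sum_comm]
  apply sum_congr rfl
  intro j _
  rw [sum_comm]

lemma swap12 (F : I → I → I → ℝ) : ∑ i, ∑ j, ∑ k, F j i k = ∑ i, ∑ j, ∑ k, F i j k := by
  rw [sum_comm]

lemma swap23 (F : I → I → I → ℝ) : ∑ i, ∑ j, ∑ k, F i k j = ∑ i, ∑ j, ∑ k, F i j k := by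
  apply sum_congr rfl
  intro i _
  rw [sum_comm]

lemma sg_nae {a b c : Bool} (h : ¬ (a = b ∧ b = c)) : sg a * sg b + sg c * sg a + sg b * sg c = -1 := by
  revert h
  cases a <;> cases b <;> cases c <;> simp [sg]

lemma sg_le (a b c : Bool) : sg a * sg b + sg c * sg a + sg b * sg c ≤ 3 := by
  cases a <;> cases b <;> cases c <;> norm_num [sg]

theorem TS_le {x σ : Sym2 (I × (Sym2 I → L)) → Bool}
    (hσ : ∀ P Q R, (Gr x).Adj P Q → (Gr x).Adj Q R → (Gr x).Adj P R →
      ¬ (σ s(P, Q) = σ s(P, R) ∧ σ s(P, R) = σ s(Q, R))) :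
    TS x σ ≤ -TR x / 3 + 8 * KC x := by
  -- pointwise
  set tr : (Sym2 I → L) → I → I → I → ℝ := fun g i j k =>
    d3 i j k * (X x (ln i j g) * X x (ln i k g) * X x (ln j k g)) with htr
  have htr0 : ∀ g i j k, 0 ≤ tr g i j k := fun g i j k =>
    mul_nonneg (d3_nonneg _ _ _) (mul_nonneg (mul_nonneg (X_nonneg _ _) (X_nonneg _ _)) (X_nonneg _ _))
  set β : (Sym2 I → L) → I → I → ℝ := fun g i j => cf x g i j + cf x g j i with hβ
  have hβ0 : ∀ g i j, 0 ≤ β g i j := fun g i j => add_nonneg (cf_nonneg _ _ _ _) (cf_nonneg _ _ _ _)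
  have hβ1 : ∀ g i j, Bd x g i j → 1 ≤ β g i j := by
    rintro g i j (h | h)
    · have h1 := one_le_cf h
      have h2 := cf_nonneg x g j i
      simp only [hβ]; linarith
    · have h1 := one_le_cf h
      have h2 := cf_nonneg x g i j
      simp only [hβ]; linarith
  have hpt : ∀ g i j k, tr g i j k * (sg (σ (ln i j g)) * sg (σ (ln i k g)) +
      sg (σ (ln j k g)) * sg (σ (ln i j g)) + sg (σ (ln i k g)) * sg (σ (ln j k g))) ≤
      tr g i j k * (-1 + 4 * (β g i j + β g i k + β g j k)) := by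
    intro g i j k
    by_cases h0 : tr g i j k = 0
    · rw [h0]; simp
    · apply mul_le_mul_of_nonneg_left _ (htr0 g i j k)
      by_cases hbad : Bd x g i j ∨ Bd x g i k ∨ Bd x g j k
      · have h1 := sg_le (σ (ln i j g)) (σ (ln i k g)) (σ (ln j k g))
        have h2 : 1 ≤ β g i j + β g i k + β g j k := by
          have a1 := hβ0 g i j
          have a2 := hβ0 g i k
          have a3 := hβ0 g j k
          rcases hbad with h | h | h
          · have := hβ1 _ _ _ h; linarith
          · have := hβ1 _ _ _ h; linarith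
          · have := hβ1 _ _ _ h; linarith
        linarith
      · push Not at hbad
        obtain ⟨b1, b2, b3⟩ := hbad
        have hd : i ≠ j ∧ i ≠ k ∧ j ≠ k := by
          by_contra hcon
          apply h0
          simp only [htr]
          unfold d3
          rw [if_neg hcon, zero_mul]
        have hX : ∀ e, X x e ≠ 0 → x e = true := by
          intro e he
          by_contra hcon
          apply he
          simp [X, hcon]
        have x1 : x (ln i j g) = true := hX _ fun h => h0 (by simp only [htr]; rw [h]; ring)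
        have x2 : x (ln i k g) = true := hX _ fun h => h0 (by simp only [htr]; rw [h]; ring)
        have x3 : x (ln j k g) = true := hX _ fun h => h0 (by simp only [htr]; rw [h]; ring)
        have h1 := hσ (u i g) (u j g) (u k g) ⟨i, j, g, hd.1, rfl, rfl, x1, b1⟩
          ⟨j, k, g, hd.2.2, rfl, rfl, x3, b3⟩ ⟨i, k, g, hd.2.1, rfl, rfl, x2, b2⟩
        have h2 := sg_nae (a := σ (ln i j g)) (b := σ (ln i k g)) (c := σ (ln j k g)) h1
        rw [h2]
        have a1 := hβ0 g i j
        have a2 := hβ0 g i k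
        have a3 := hβ0 g j k
        linarith
  have hTS : ∀ g, 3 * ∑ i, ∑ j, ∑ k, d3 i j k * (X x (ln i j g) * X x (ln i k g) * X x (ln j k g) *
      (sg (σ (ln i j g)) * sg (σ (ln i k g)))) = ∑ i, ∑ j, ∑ k, tr g i j k *
      (sg (σ (ln i j g)) * sg (σ (ln i k g)) +
      sg (σ (ln j k g)) * sg (σ (ln i j g)) + sg (σ (ln i k g)) * sg (σ (ln j k g))) := by
    intro g
    set F : I → I → I → ℝ := fun i j k => d3 i j k * (X x (ln i j g) * X x (ln i k g) *
      X x (ln j k g) * (sg (σ (ln i j g)) * sg (σ (ln i k g)))) with hF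
    have r1 := rot F
    have r2 := rot (fun i j k => F j k i)
    have h1 : 3 * ∑ i, ∑ j, ∑ k, F i j k = ∑ i, ∑ j, ∑ k, (F i j k + F j k i + F k i j) := by
      simp only [sum_add_distrib]
      rw [r2, r1]
      ring
    rw [h1]
    apply sum_congr rfl; intro i _
    apply sum_congr rfl; intro j _
    apply sum_congr rfl; intro k _
    simp only [hF, htr]
    have e1 : d3 j k i = d3 i j k := by rw [d3_swap2, d3_swap1]
    have e2 : d3 k i j = d3 i j k := by rw [d3_swap1, d3_swap2]
    rw [e1, e2, ln_comm j i g, ln_comm k i g, ln_comm k j g]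
    ring
  have hK : ∀ g, ∑ i, ∑ j, ∑ k, tr g i j k * (-1 + 4 * (β g i j + β g i k + β g j k)) =
      -∑ i, ∑ j, ∑ k, tr g i j k + 24 * ∑ b, ∑ c, ∑ a, d3 b c a * (X x (ln b c g) * X x (ln b a g) *
        X x (ln c a g) * cf x g b c) := by
    intro g
    have s1 : ∑ i, ∑ j, ∑ k, tr g i j k * β g i k = ∑ i, ∑ j, ∑ k, tr g i j k * β g i j := by
      rw [← swap23]
      apply sum_congr rfl; intro i _
      apply sum_congr rfl; intro j _
      apply sum_congr rfl; intro k _
      simp only [htr]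
      rw [d3_swap2 i k j, ln_comm k j g]
      ring
    have s2 : ∑ i, ∑ j, ∑ k, tr g i j k * β g j k = ∑ i, ∑ j, ∑ k, tr g i j k * β g i j := by
      rw [← rot (fun i j k => tr g i j k * β g i j)]
      apply sum_congr rfl; intro i _
      apply sum_congr rfl; intro j _
      apply sum_congr rfl; intro k _
      simp only [htr]
      have e1 : d3 j k i = d3 i j k := by rw [d3_swap2, d3_swap1]
      rw [e1, ln_comm j i g, ln_comm k i g]
      ring
    have s3 : ∑ i, ∑ j, ∑ k, tr g i j k * cf x g j i = ∑ i, ∑ j, ∑ k, tr g i j k * cf x g i j := by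
      rw [← swap12]
      apply sum_congr rfl; intro i _
      apply sum_congr rfl; intro j _
      apply sum_congr rfl; intro k _
      simp only [htr]
      rw [d3_swap1 j i k, ln_comm j i g]
      ring
    have s4 : ∑ i, ∑ j, ∑ k, tr g i j k * β g i j = 2 * ∑ i, ∑ j, ∑ k, tr g i j k * cf x g i j := by
      simp only [hβ, mul_add, sum_add_distrib]
      rw [s3]
      ring
    have s5 : ∑ i, ∑ j, ∑ k, tr g i j k * cf x g i j = ∑ b, ∑ c, ∑ a, d3 b c a *
        (X x (ln b c g) * X x (ln b a g) * X x (ln c a g) * cf x g b c) := by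
      apply sum_congr rfl; intro i _
      apply sum_congr rfl; intro j _
      apply sum_congr rfl; intro k _
      simp only [htr]
      ring
    rw [← s5]
    have s6 : ∑ i, ∑ j, ∑ k, tr g i j k * (-1 + 4 * (β g i j + β g i k + β g j k)) =
        -∑ i, ∑ j, ∑ k, tr g i j k + 4 * (∑ i, ∑ j, ∑ k, tr g i j k * β g i j +
        ∑ i, ∑ j, ∑ k, tr g i j k * β g i k + ∑ i, ∑ j, ∑ k, tr g i j k * β g j k) := by
      rw [← sum_neg_distrib, ← sum_add_distrib, ← sum_add_distrib, mul_sum, ← sum_add_distrib]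
      apply sum_congr rfl; intro i _
      rw [← sum_neg_distrib, ← sum_add_distrib, ← sum_add_distrib, mul_sum, ← sum_add_distrib]
      apply sum_congr rfl; intro j _
      rw [← sum_neg_distrib, ← sum_add_distrib, ← sum_add_distrib, mul_sum, ← sum_add_distrib]
      apply sum_congr rfl; intro k _
      ring
    rw [s6, s1, s2, s4]
    ring
  have h3 : 3 * TS x σ ≤ -TR x + 24 * KC x := by
    unfold TS TR KC
    rw [mul_sum, mul_sum, ← sum_neg_distrib, ← sum_add_distrib]
    apply sum_le_sum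
    intro g _
    rw [hTS g, ← hK g]
    apply sum_le_sum; intro i _
    apply sum_le_sum; intro j _
    apply sum_le_sum; intro k _
    exact hpt g i j k
  linarith

end Pool.Agent.K6.H30.Folk
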