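import Pool.Agent.K6.H30.Expect

set_option autoImplicit false
set_option linter.all false

/-!
# The expected number of the conflicts
-/

namespace Pool.Agent.K6.H30.Folk

open Finset Function Pool.Agent.K6.H30.Prob

variable {I L : Type} [Fintype I] [LinearOrder I] [Fintype L] [DecidableEq L] [Inhabited L]

lemma Yr_mul_prod (x : Sym2 (I × (Sym2 I → L)) → Bool) (g : Sym2 I → L) (b c : I) (α : L × I)
    (T : Finset (Sym2 (I × (Sym2 I → L)))) :
    Yr x g b c α * ∏ e ∈ T, X x e = ∏ e ∈ pl g b c α ∪ T, X x e := by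
  unfold Yr pl
  rw [mul_assoc, X_mul_prod, X_mul_prod]
  congr 1
  ext e
  simp only [mem_insert, mem_union, mem_singleton, or_assoc]

lemma Yr_prod3 (x : Sym2 (I × (Sym2 I → L)) → Bool) (g : Sym2 I → L) (b c : I) (α β γ : L × I) :
    Yr x g b c γ * (Yr x g b c α * Yr x g b c β) =
      ∏ e ∈ ({γ, α, β} : Finset (L × I)).biUnion (pl g b c), X x e := by
  have h1 : Yr x g b c β = ∏ e ∈ pl g b c β, X x e := by
    have := Yr_mul_prod x g b c β ∅
    simpa using this
  rw [h1, Yr_mul_prod, Yr_mul_prod, biUnion_insert, biUnion_insert, singleton_biUnion]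

lemma Yr_self (x : Sym2 (I × (Sym2 I → L)) → Bool) (g : Sym2 I → L) (b c a : I) :
    Yr x g b c (g s(b, c), a) = X x (ln b a g) * X x (ln c a g) := by
  unfold Yr
  simp only [update_eq_self]

lemma Ex_base {p : ℝ} (g : Sym2 I → L) {b c : I} (hbc : b ≠ c) {α β γ : L × I} (hα : Val b c α)
    (hβ : Val b c β) (hγ : Val b c γ) :
    Ex p (fun x => X x (ln b c g) * (Yr x g b c γ * (Yr x g b c α * Yr x g b c β))) =
      p ^ (1 + 2 * ({γ, α, β} : Finset (L × I)).card) := by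
  have hT : ∀ δ ∈ ({γ, α, β} : Finset (L × I)), Val b c δ := by
    intro δ hδ
    simp only [mem_insert, mem_singleton] at hδ
    rcases hδ with rfl | rfl | rfl
    · exact hγ
    · exact hα
    · exact hβ
  rw [← card_petals hbc _ hT, ← Ex_X_prod]
  congr 1
  funext x
  rw [Yr_prod3, X_mul_prod]

lemma Ex_ext {p : ℝ} (g : Sym2 I → L) {b c : I} (hbc : b ≠ c) {α β γ : L × I} (hα : Val b c α)
    (hβ : Val b c β) (hγ : Val b c γ) {ξ : L} (hne : α.2 ≠ β.2) (hξ : ξ ≠ g s(α.2, β.2)) :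
    Ex p (fun x => Er x g b c α β ξ *
      (X x (ln b c g) * (Yr x g b c γ * (Yr x g b c α * Yr x g b c β)))) =
      p ^ (3 + 2 * ({γ, α, β} : Finset (L × I)).card) := by
  have hT : ∀ δ ∈ ({γ, α, β} : Finset (L × I)), Val b c δ := by
    intro δ hδ
    simp only [mem_insert, mem_singleton] at hδ
    rcases hδ with rfl | rfl | rfl
    · exact hγ
    · exact hα
    · exact hβ
  rw [← card_petals_ext hbc _ hT hα hβ hne hξ, ← Ex_X_prod]
  congr 1
  funext x
  rw [Yr_prod3, X_mul_prod]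
  unfold Er
  rw [mul_assoc, X_mul_prod, X_mul_prod]

lemma pow_card_le {p : ℝ} (h0 : 0 ≤ p) (h1 : p ≤ 1) {α β γ : L × I} (hne : α ≠ β) (k : ℕ) :
    p ^ (k + 2 * ({γ, α, β} : Finset (L × I)).card) ≤ p ^ (k + 6) +
      (if γ = α then p ^ (k + 4) else 0) + (if γ = β then p ^ (k + 4) else 0) := by
  have n6 : 0 ≤ p ^ (k + 6) := pow_nonneg h0 _
  have n4 : 0 ≤ p ^ (k + 4) := pow_nonneg h0 _
  by_cases ha : γ = α
  · subst ha
    rw [if_pos rfl, if_neg hne, insert_eq_of_mem (by simp), card_pair hne]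
    norm_num
    exact n6
  · by_cases hb : γ = β
    · subst hb
      rw [if_pos rfl, if_neg ha, insert_eq_of_mem (by simp), card_pair hne]
      norm_num
      exact n6
    · rw [if_neg ha, if_neg hb]
      have h2 : ({γ, α, β} : Finset (L × I)).card = 3 := card_eq_three.2 ⟨γ, α, β, ha, hb, hne, rfl⟩
      rw [h2]
      norm_num

/-- The indicator of an admissible third type. -/
def va (b c a : I) : ℝ := if a ≠ b ∧ a ≠ c then 1 else 0

lemma va_nonneg (b c a : I) : 0 ≤ va b c a := by unfold va; split_ifs <;> norm_num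
lemma va_le_one (b c a : I) : va b c a ≤ 1 := by unfold va; split_ifs <;> norm_num

lemma sum_va {b c : I} (hbc : b ≠ c) : ∑ a, va b c a = (Fintype.card I : ℝ) - 2 := by
  have h1 : ∀ a, va b c a = 1 - (if b = a then 1 else 0) - (if c = a then 1 else 0) := by
    intro a
    unfold va
    by_cases h2 : b = a
    · subst h2
      simp [hbc, Ne.symm hbc]
    · by_cases h3 : c = a
      · subst h3; simp [h2]
      · simp [h2, h3, Ne.symm h2, Ne.symm h3]
  simp only [h1, sum_sub_distrib]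
  simp
  ring

lemma sum_va_petal {b c : I} (hbc : b ≠ c) :
    ∑ α : L × I, va b c α.2 = (Fintype.card L : ℝ) * ((Fintype.card I : ℝ) - 2) := by
  rw [Fintype.sum_prod_type]
  simp only [sum_va hbc]
  simp
  ring

lemma count1 {b c : I} (hbc : b ≠ c) (m : L × I → L × I → ℝ) (hm : ∀ α β, 0 ≤ m α β)
    (hs : ∀ α β, m α β = m β α) {M A B : ℝ} (hM : ∀ α, ∑ β, va b c β.2 * m α β ≤ M) (hA : 0 ≤ A)
    (hB : 0 ≤ B) (γ : L × I) :
    ∑ α : L × I, ∑ β : L × I, va b c α.2 * (va b c β.2 * (m α β *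
      (A + (if γ = α then B else 0) + (if γ = β then B else 0)))) ≤
      (Fintype.card L : ℝ) * ((Fintype.card I : ℝ) - 2) * M * A + 2 * M * B := by
  have hM0 : 0 ≤ M := by
    refine le_trans ?_ (hM γ)
    exact sum_nonneg fun β _ => mul_nonneg (va_nonneg _ _ _) (hm _ _)
  have e : ∀ α β : L × I, va b c α.2 * (va b c β.2 * (m α β *
      (A + (if γ = α then B else 0) + (if γ = β then B else 0)))) =
      va b c α.2 * (va b c β.2 * m α β) * A + (if γ = α then va b c α.2 * (va b c β.2 * m α β) * B else 0) +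
      (if γ = β then va b c β.2 * (va b c α.2 * m β α) * B else 0) := by
    intro α β
    rw [hs β α]
    by_cases h1 : γ = α
    · by_cases h2 : γ = β
      · simp only [if_pos h1, if_pos h2]; ring
      · simp only [if_pos h1, if_neg h2]; ring
    · by_cases h2 : γ = β
      · simp only [if_neg h1, if_pos h2]; ring
      · simp only [if_neg h1, if_neg h2]; ring
  simp only [e, sum_add_distrib]
  have s1 : ∑ α : L × I, ∑ β : L × I, va b c α.2 * (va b c β.2 * m α β) * A ≤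
      (Fintype.card L : ℝ) * ((Fintype.card I : ℝ) - 2) * M * A := by
    rw [← sum_va_petal hbc, sum_mul, sum_mul]
    apply sum_le_sum
    intro α _
    rw [← sum_mul, ← mul_sum]
    apply mul_le_mul_of_nonneg_right _ hA
    exact mul_le_mul_of_nonneg_left (hM α) (va_nonneg _ _ _)
  have s0 : ∑ β : L × I, va b c γ.2 * (va b c β.2 * m γ β) * B ≤ M * B := by
    rw [← sum_mul, ← mul_sum]
    apply mul_le_mul_of_nonneg_right _ hB
    calc va b c γ.2 * ∑ β, va b c β.2 * m γ β ≤ 1 * M :=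
          mul_le_mul (va_le_one _ _ _) (hM γ)
            (sum_nonneg fun β _ => mul_nonneg (va_nonneg _ _ _) (hm _ _)) zero_le_one
      _ = M := one_mul _
  have s2 : ∑ α : L × I, ∑ β : L × I, (if γ = α then va b c α.2 * (va b c β.2 * m α β) * B else 0) ≤
      M * B := by
    rw [sum_comm]
    refine le_trans (le_of_eq ?_) s0
    apply sum_congr rfl
    intro β _
    rw [sum_ite_eq]
    simp
  have s3 : ∑ α : L × I, ∑ β : L × I, (if γ = β then va b c β.2 * (va b c α.2 * m β α) * B else 0) ≤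
      M * B := by
    refine le_trans (le_of_eq ?_) s0
    apply sum_congr rfl
    intro β _
    rw [sum_ite_eq]
    simp
  linarith

/-- The bound for one triangle. -/
noncomputable def bnd (R q p : ℝ) : ℝ :=
  q * R * (R + q) * p ^ 7 + 2 * (R + q) * p ^ 5 + (q * R * (q ^ 2 * R) * p ^ 9 + 2 * (q ^ 2 * R) * p ^ 7)

lemma vp_le (b c : I) (α β : L × I) : vp b c α β ≤ va b c α.2 * va b c β.2 := by
  unfold vp va
  by_cases h : α.2 ≠ b ∧ α.2 ≠ c ∧ β.2 ≠ b ∧ β.2 ≠ c ∧ α ≠ β
  · rw [if_pos h, if_pos ⟨h.1, h.2.1⟩, if_pos ⟨h.2.2.1, h.2.2.2.1⟩]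
    norm_num
  · rw [if_neg h]
    split_ifs <;> norm_num

lemma m1_sum {b c : I} (hbc : b ≠ c) (α : L × I) :
    ∑ β : L × I, va b c β.2 * (if α.1 = β.1 ∨ α.2 = β.2 then (1 : ℝ) else 0) ≤
      ((Fintype.card I : ℝ) - 2) + Fintype.card L := by
  have h1 : ∀ β : L × I, va b c β.2 * (if α.1 = β.1 ∨ α.2 = β.2 then (1 : ℝ) else 0) ≤
      (if α.1 = β.1 then va b c β.2 else 0) + (if α.2 = β.2 then va b c β.2 else 0) := by
    intro β
    have := va_nonneg b c β.2
    by_cases h : α.1 = β.1 <;> by_cases h' : α.2 = β.2 <;> simp [h, h'] <;> linarith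
  refine le_trans (sum_le_sum fun β _ => h1 β) ?_
  rw [sum_add_distrib]
  have h2 : ∑ β : L × I, (if α.1 = β.1 then va b c β.2 else 0) = (Fintype.card I : ℝ) - 2 := by
    rw [Fintype.sum_prod_type, ← sum_va hbc, sum_comm]
    apply sum_congr rfl
    intro a _
    simp
  have h3 : ∑ β : L × I, (if α.2 = β.2 then va b c β.2 else 0) ≤ (Fintype.card L : ℝ) := by
    rw [Fintype.sum_prod_type]
    simp only [sum_ite_eq, mem_univ, if_true]
    simp only [sum_const, card_univ, nsmul_eq_mul]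
    nlinarith [va_le_one b c α.2, va_nonneg b c α.2, (Nat.cast_nonneg (Fintype.card L) : (0 : ℝ) ≤ _)]
  linarith

lemma Ex_cf {p : ℝ} (h0 : 0 ≤ p) (h1 : p ≤ 1) (g : Sym2 I → L) {b c a : I} (hbc : b ≠ c)
    (hab : a ≠ b) (hac : a ≠ c) (hI : (2 : ℝ) ≤ Fintype.card I) :
    Ex p (fun x => X x (ln b c g) * X x (ln b a g) * X x (ln c a g) * cf x g b c) ≤
      bnd ((Fintype.card I : ℝ) - 2) (Fintype.card L) p := by
  set R : ℝ := (Fintype.card I : ℝ) - 2 with hR
  set q : ℝ := (Fintype.card L : ℝ) with hq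
  have hR0 : 0 ≤ R := by linarith
  have hq0 : 0 ≤ q := Nat.cast_nonneg _
  set γ : L × I := (g s(b, c), a) with hγ
  have vγ : Val b c γ := ⟨hab, hac⟩
  -- the integrand
  have hF : ∀ x : Sym2 (I × (Sym2 I → L)) → Bool,
      X x (ln b c g) * X x (ln b a g) * X x (ln c a g) * cf x g b c =
      ∑ α : L × I, ∑ β : L × I, (vp b c α β * (if α.1 = β.1 ∨ α.2 = β.2 then (1 : ℝ) else 0) *
        (X x (ln b c g) * (Yr x g b c γ * (Yr x g b c α * Yr x g b c β))) +
        ∑ ξ : L, (vp b c α β * (if α.2 ≠ β.2 ∧ ξ ≠ g s(α.2, β.2) then (1 : ℝ) else 0)) *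
        (Er x g b c α β ξ * (X x (ln b c g) * (Yr x g b c γ * (Yr x g b c α * Yr x g b c β))))) := by
    intro x
    rw [mul_assoc (X x (ln b c g)), ← Yr_self]
    unfold cf
    rw [mul_sum]
    apply sum_congr rfl; intro α _
    rw [mul_sum]
    apply sum_congr rfl; intro β _
    have hs : (if α.2 ≠ β.2 then ∑ ξ : L, (if ξ ≠ g s(α.2, β.2) then Er x g b c α β ξ else 0) else 0) =
        ∑ ξ : L, (if α.2 ≠ β.2 ∧ ξ ≠ g s(α.2, β.2) then (1 : ℝ) else 0) * Er x g b c α β ξ := by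
      by_cases h : α.2 ≠ β.2
      · rw [if_pos h]
        apply sum_congr rfl; intro ξ _
        by_cases h' : ξ ≠ g s(α.2, β.2)
        · rw [if_pos h', if_pos ⟨h, h'⟩, one_mul]
        · rw [if_neg h', if_neg (fun hh => h' hh.2), zero_mul]
      · rw [if_neg h]
        symm
        apply sum_eq_zero
        intro ξ _
        rw [if_neg (fun hh => h hh.1), zero_mul]
    rw [hs, mul_add, mul_add, mul_add]
    congr 1
    · ring
    · rw [mul_sum, mul_sum, mul_sum]
      apply sum_congr rfl; intro ξ _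
      ring
  simp only [hF, Ex_sum, Ex_add, Ex_mul_left]
  -- the two bounds
  have b1 : ∀ α β : L × I, vp b c α β * (if α.1 = β.1 ∨ α.2 = β.2 then (1 : ℝ) else 0) *
      Ex p (fun x => X x (ln b c g) * (Yr x g b c γ * (Yr x g b c α * Yr x g b c β))) ≤
      va b c α.2 * (va b c β.2 * ((if α.1 = β.1 ∨ α.2 = β.2 then (1 : ℝ) else 0) *
        (p ^ 7 + (if γ = α then p ^ 5 else 0) + (if γ = β then p ^ 5 else 0)))) := by
    intro α β
    have hn : 0 ≤ p ^ 7 + (if γ = α then p ^ 5 else 0) + (if γ = β then p ^ 5 else 0) := by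
      have := pow_nonneg h0 7
      have := pow_nonneg h0 5
      split_ifs <;> linarith
    have hm : (0 : ℝ) ≤ (if α.1 = β.1 ∨ α.2 = β.2 then (1 : ℝ) else 0) := by split_ifs <;> norm_num
    by_cases h : α.2 ≠ b ∧ α.2 ≠ c ∧ β.2 ≠ b ∧ β.2 ≠ c ∧ α ≠ β
    · rw [Ex_base g hbc ⟨h.1, h.2.1⟩ ⟨h.2.2.1, h.2.2.2.1⟩ vγ]
      have h2 := pow_card_le h0 h1 (γ := γ) h.2.2.2.2 1
      have h3 := vp_le b c α β
      calc vp b c α β * (if α.1 = β.1 ∨ α.2 = β.2 then (1 : ℝ) else 0) *
            p ^ (1 + 2 * ({γ, α, β} : Finset (L × I)).card) ≤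
            (va b c α.2 * va b c β.2) * (if α.1 = β.1 ∨ α.2 = β.2 then (1 : ℝ) else 0) *
            (p ^ 7 + (if γ = α then p ^ 5 else 0) + (if γ = β then p ^ 5 else 0)) := by
              apply mul_le_mul _ h2 (pow_nonneg h0 _)
                (mul_nonneg (mul_nonneg (va_nonneg _ _ _) (va_nonneg _ _ _)) hm)
              exact mul_le_mul_of_nonneg_right h3 hm
        _ = _ := by ring
    · have : vp b c α β = 0 := by unfold vp; rw [if_neg h]
      rw [this, zero_mul, zero_mul]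
      exact mul_nonneg (va_nonneg _ _ _) (mul_nonneg (va_nonneg _ _ _) (mul_nonneg hm hn))
  have b2 : ∀ α β : L × I, ∑ ξ : L, (vp b c α β * (if α.2 ≠ β.2 ∧ ξ ≠ g s(α.2, β.2) then (1 : ℝ) else 0)) *
      Ex p (fun x => Er x g b c α β ξ *
        (X x (ln b c g) * (Yr x g b c γ * (Yr x g b c α * Yr x g b c β)))) ≤
      va b c α.2 * (va b c β.2 * (q *
        (p ^ 9 + (if γ = α then p ^ 7 else 0) + (if γ = β then p ^ 7 else 0)))) := by
    intro α β
    have hn : 0 ≤ p ^ 9 + (if γ = α then p ^ 7 else 0) + (if γ = β then p ^ 7 else 0) := by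
      have := pow_nonneg h0 9
      have := pow_nonneg h0 7
      split_ifs <;> linarith
    have hξ : ∀ ξ : L, (vp b c α β * (if α.2 ≠ β.2 ∧ ξ ≠ g s(α.2, β.2) then (1 : ℝ) else 0)) *
        Ex p (fun x => Er x g b c α β ξ *
        (X x (ln b c g) * (Yr x g b c γ * (Yr x g b c α * Yr x g b c β)))) ≤
        (va b c α.2 * va b c β.2) *
        (p ^ 9 + (if γ = α then p ^ 7 else 0) + (if γ = β then p ^ 7 else 0)) := by
      intro ξ
      by_cases h : (α.2 ≠ b ∧ α.2 ≠ c ∧ β.2 ≠ b ∧ β.2 ≠ c ∧ α ≠ β) ∧ (α.2 ≠ β.2 ∧ ξ ≠ g s(α.2, β.2))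
      · obtain ⟨h, h'⟩ := h
        rw [Ex_ext g hbc ⟨h.1, h.2.1⟩ ⟨h.2.2.1, h.2.2.2.1⟩ vγ h'.1 h'.2, if_pos h', mul_one]
        have h2 := pow_card_le h0 h1 (γ := γ) h.2.2.2.2 3
        exact mul_le_mul (vp_le b c α β) h2 (pow_nonneg h0 _)
          (mul_nonneg (va_nonneg _ _ _) (va_nonneg _ _ _))
      · have : vp b c α β * (if α.2 ≠ β.2 ∧ ξ ≠ g s(α.2, β.2) then (1 : ℝ) else 0) = 0 := by
          by_cases h2 : (α.2 ≠ b ∧ α.2 ≠ c ∧ β.2 ≠ b ∧ β.2 ≠ c ∧ α ≠ β)
          · rw [if_neg (fun h3 => h ⟨h2, h3⟩), mul_zero]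
          · unfold vp; rw [if_neg h2, zero_mul]
        rw [this, zero_mul]
        exact mul_nonneg (mul_nonneg (va_nonneg _ _ _) (va_nonneg _ _ _)) hn
    refine le_trans (sum_le_sum fun ξ _ => hξ ξ) ?_
    rw [sum_const, card_univ, nsmul_eq_mul]
    apply le_of_eq
    rw [hq]
    ring
  have c1 := count1 hbc (fun α β : L × I => if α.1 = β.1 ∨ α.2 = β.2 then (1 : ℝ) else 0)
    (fun α β => by split_ifs <;> norm_num)
    (fun α β => by congr 1; apply propext; constructor <;> rintro (h | h) <;>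
      [exact Or.inl h.symm; exact Or.inr h.symm; exact Or.inl h.symm; exact Or.inr h.symm])
    (M := R + q) (A := p ^ 7) (B := p ^ 5) (fun α => m1_sum hbc α) (pow_nonneg h0 _) (pow_nonneg h0 _) γ
  have c2 := count1 hbc (fun _ _ : L × I => q) (fun _ _ => hq0) (fun _ _ => rfl)
    (M := q ^ 2 * R) (A := p ^ 9) (B := p ^ 7) (fun α => by
      rw [← sum_mul, sum_va_petal hbc]
      apply le_of_eq
      rw [hq, hR]
      ring) (pow_nonneg h0 _) (pow_nonneg h0 _) γ
  calc _ ≤ ∑ α : L × I, ∑ β : L × I, (va b c α.2 * (va b c β.2 *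
        ((if α.1 = β.1 ∨ α.2 = β.2 then (1 : ℝ) else 0) *
        (p ^ 7 + (if γ = α then p ^ 5 else 0) + (if γ = β then p ^ 5 else 0)))) +
        va b c α.2 * (va b c β.2 * (q *
        (p ^ 9 + (if γ = α then p ^ 7 else 0) + (if γ = β then p ^ 7 else 0))))) := by
        apply sum_le_sum; intro α _
        apply sum_le_sum; intro β _
        exact add_le_add (b1 α β) (b2 α β)
    _ ≤ _ := by
        simp only [sum_add_distrib]
        unfold bnd
        linarith

theorem Ex_KC {p : ℝ} (h0 : 0 ≤ p) (h1 : p ≤ 1) (hI : (2 : ℝ) ≤ Fintype.card I) :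
    Ex p (fun x => KC (I := I) (L := L) x) ≤
    Fintype.card (Sym2 I → L) * (Fintype.card I * ((Fintype.card I - 1) * (Fintype.card I - 2) *
      bnd ((Fintype.card I : ℝ) - 2) (Fintype.card L) p)) := by
  unfold KC
  simp only [Ex_sum, Ex_mul_left]
  have h2 : ∀ (g : Sym2 I → L) (b c a : I), d3 b c a * Ex p (fun x => X x (ln b c g) * X x (ln b a g) *
      X x (ln c a g) * cf x g b c) ≤
      d3 b c a * bnd ((Fintype.card I : ℝ) - 2) (Fintype.card L) p := by
    intro g b c a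
    by_cases h : b ≠ c ∧ b ≠ a ∧ c ≠ a
    · exact mul_le_mul_of_nonneg_left (Ex_cf h0 h1 g h.1 h.2.1.symm h.2.2.symm hI) (d3_nonneg _ _ _)
    · have : d3 b c a = 0 := by unfold d3; rw [if_neg h]
      rw [this, zero_mul, zero_mul]
  refine le_trans (sum_le_sum fun g _ => sum_le_sum fun b _ => sum_le_sum fun c _ =>
    sum_le_sum fun a _ => h2 g b c a) ?_
  simp only [← sum_mul, sum_d3, sum_d2]
  simp
  apply le_of_eq
  ring

end Pool.Agent.K6.H30.Folk
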