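import Pool.Agent.K6.H30.Colour

set_option autoImplicit false
set_option linter.all false

/-!
# The expectations
-/

namespace Pool.Agent.K6.H30.Folk

open Finset Function Pool.Agent.K6.H30.Prob

variable {I L : Type} [Fintype I] [LinearOrder I] [Fintype L] [DecidableEq L] [Inhabited L]

lemma Ex_X {E : Type} [Fintype E] [DecidableEq E] (p : ℝ) (e : E) :
    Ex p (fun x => X x e) = p := by
  have := Ex_X_prod p {e}
  simpa using this

lemma Ex_XX {E : Type} [Fintype E] [DecidableEq E] (p : ℝ) {e f : E} (h : e ≠ f) :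
    Ex p (fun x => X x e * X x f) = p ^ 2 := by
  have h1 := Ex_X_prod p {e, f}
  rw [card_pair h] at h1
  rw [← h1]
  congr 1
  funext x
  rw [prod_pair h]

lemma Ex_XXX {E : Type} [Fintype E] [DecidableEq E] (p : ℝ) {e f g : E} (h : e ≠ f) (h' : e ≠ g)
    (h'' : f ≠ g) : Ex p (fun x => X x e * X x f * X x g) = p ^ 3 := by
  have h1 := Ex_X_prod p {e, f, g}
  have h2 : ({e, f, g} : Finset E).card = 3 := card_eq_three.2 ⟨e, f, g, h, h', h'', rfl⟩
  rw [h2] at h1
  rw [← h1]
  congr 1
  funext x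
  rw [prod_insert (by simp [h, h']), prod_pair h'', mul_assoc]

lemma ln_ne {i j k : I} (hij : i ≠ j) (hik : i ≠ k) (hjk : j ≠ k) (g h : Sym2 I → L) :
    ln i j g ≠ ln i k h := by
  intro hcon
  rw [ln_eq hij hik] at hcon
  rcases hcon.1 with h1 | h1
  · exact hjk h1.2
  · exact hik h1.1

lemma d2_eq (i j : I) : d2 i j = 1 - (if i = j then 1 else 0) := by
  unfold d2
  by_cases h : i = j <;> simp [h]

lemma sum_d2 (i : I) : ∑ j, d2 i j = (Fintype.card I : ℝ) - 1 := by
  simp only [d2_eq, sum_sub_distrib]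
  simp

lemma sum_d3 (i j : I) : ∑ k, d3 i j k = d2 i j * ((Fintype.card I : ℝ) - 2) := by
  by_cases h : i = j
  · subst h
    simp [d3, d2]
  · have h1 : ∀ k, d3 i j k = 1 - (if i = k then 1 else 0) - (if j = k then 1 else 0) := by
      intro k
      unfold d3
      by_cases h2 : i = k
      · subst h2
        simp [Ne.symm h]
      · by_cases h3 : j = k
        · subst h3; simp [h]
        · simp [h, h2, h3]
    simp only [h1, sum_sub_distrib]
    simp [d2, h]
    ring

lemma Ex_W (p : ℝ) : Ex p (fun x => W (I := I) (L := L) x) =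
    Fintype.card (Sym2 I → L) * (Fintype.card I * ((Fintype.card I - 1) * p)) := by
  unfold W
  simp only [Ex_sum, Ex_mul_left, Ex_X, ← sum_mul, sum_d2]
  simp
  ring

lemma Ex_U (p : ℝ) : Ex p (fun x => U (I := I) (L := L) x) =
    Fintype.card (Sym2 I → L) * (Fintype.card I * ((Fintype.card I - 1) * (Fintype.card I - 2) * p ^ 2)) := by
  unfold U
  simp only [Ex_sum, Ex_mul_left]
  have h1 : ∀ (g : Sym2 I → L) (i j k : I), d3 i j k * Ex p (fun x => X x (ln i j g) * X x (ln i k g)) =
      d3 i j k * p ^ 2 := by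
    intro g i j k
    by_cases h : i ≠ j ∧ i ≠ k ∧ j ≠ k
    · rw [Ex_XX p (ln_ne h.1 h.2.1 h.2.2 g g)]
    · have : d3 i j k = 0 := by unfold d3; rw [if_neg h]
      rw [this]; ring
  simp only [h1, ← sum_mul, sum_d3, sum_d2]
  simp
  ring

lemma Ex_TR (p : ℝ) : Ex p (fun x => TR (I := I) (L := L) x) =
    Fintype.card (Sym2 I → L) * (Fintype.card I * ((Fintype.card I - 1) * (Fintype.card I - 2) * p ^ 3)) := by
  unfold TR
  simp only [Ex_sum, Ex_mul_left]
  have h1 : ∀ (g : Sym2 I → L) (i j k : I), d3 i j k * Ex p (fun x => X x (ln i j g) * X x (ln i k g) *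
      X x (ln j k g)) = d3 i j k * p ^ 3 := by
    intro g i j k
    by_cases h : i ≠ j ∧ i ≠ k ∧ j ≠ k
    · rw [Ex_XXX p (ln_ne h.1 h.2.1 h.2.2 g g)]
      · rw [ln_comm i j]
        exact ln_ne h.1.symm h.2.2 h.2.1 g g
      · rw [ln_comm i k, ln_comm j k]
        exact ln_ne h.2.1.symm h.2.2.symm h.1 g g
    · have : d3 i j k = 0 := by unfold d3; rw [if_neg h]
      rw [this]; ring
  simp only [h1, ← sum_mul, sum_d3, sum_d2]
  simp
  ring

/-- The two lines of the petal `α` at the line `(b, c)` of the block `g`. -/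
noncomputable def pl (g : Sym2 I → L) (b c : I) (α : L × I) : Finset (Sym2 (I × (Sym2 I → L))) :=
  {ln b α.2 (update g s(b, c) α.1), ln c α.2 (update g s(b, c) α.1)}

/-- Valid petals. -/
def Val (b c : I) (α : L × I) : Prop := α.2 ≠ b ∧ α.2 ≠ c

lemma upd_eq {g : Sym2 I → L} {m : Sym2 I} {s s' : L} {M : Sym2 I} (hM : m ≠ M)
    (h : ∀ m', m' ≠ M → update g m s m' = update g m s' m') : s = s' := by
  have := h m hM
  rwa [update_self, update_self] at this

lemma s_ne {b c d : I} (hbc : b ≠ c) (hd : d ≠ b) (hd' : d ≠ c) : s(b, c) ≠ s(b, d) := by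
  intro h
  rw [Sym2.eq_iff] at h
  rcases h with h | h
  · exact hd' h.2.symm
  · exact hbc h.2.symm

lemma s_ne' {b c d : I} (hbc : b ≠ c) (hd : d ≠ b) (hd' : d ≠ c) : s(b, c) ≠ s(c, d) := by
  intro h
  rw [Sym2.eq_iff] at h
  rcases h with h | h
  · exact hbc h.1
  · exact hd h.1.symm

section

variable {g : Sym2 I → L} {b c : I} (hbc : b ≠ c)

include hbc

lemma pl_card {α : L × I} (hα : Val b c α) : (pl g b c α).card = 2 := by
  unfold pl
  apply card_pair
  intro h
  rw [ln_eq hα.1.symm hα.2.symm] at h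
  rcases h.1 with h1 | h1
  · exact hbc h1.1
  · exact hα.1 h1.1.symm

lemma pl_disj {α β : L × I} (hα : Val b c α) (hβ : Val b c β) (hne : α ≠ β) :
    Disjoint (pl g b c α) (pl g b c β) := by
  rw [disjoint_left]
  intro e he he'
  unfold pl at he he'
  simp only [mem_insert, mem_singleton] at he he'
  rcases he with rfl | rfl
  · rcases he' with h | h
    · rw [ln_eq hα.1.symm hβ.1.symm] at h
      have h2 : α.2 = β.2 := by
        rcases h.1 with h1 | h1
        · exact h1.2
        · exact absurd h1.1.symm hβ.1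
      have h3 : α.1 = β.1 := upd_eq (s_ne hbc hα.1 hα.2) h.2
      exact hne (Prod.ext h3 h2)
    · rw [ln_eq hα.1.symm hβ.2.symm] at h
      rcases h.1 with h1 | h1
      · exact hbc h1.1
      · exact hα.2 h1.2
  · rcases he' with h | h
    · rw [ln_eq hα.2.symm hβ.1.symm] at h
      rcases h.1 with h1 | h1
      · exact hbc h1.1.symm
      · exact hβ.2 h1.1.symm
    · rw [ln_eq hα.2.symm hβ.2.symm] at h
      have h2 : α.2 = β.2 := by
        rcases h.1 with h1 | h1
        · exact h1.2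
        · exact absurd h1.1.symm hβ.2
      have h3 : α.1 = β.1 := upd_eq (s_ne' hbc hα.1 hα.2) h.2
      exact hne (Prod.ext h3 h2)

lemma l_notMem {α : L × I} (hα : Val b c α) : ln b c g ∉ pl g b c α := by
  unfold pl
  simp only [mem_insert, mem_singleton, not_or]
  constructor
  · intro h
    rw [ln_eq hbc hα.1.symm] at h
    rcases h.1 with h1 | h1
    · exact hα.2 h1.2.symm
    · exact hbc h1.2.symm
  · intro h
    rw [ln_eq hbc hα.2.symm] at h
    rcases h.1 with h1 | h1
    · exact hbc h1.1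
    · exact hα.1 h1.1.symm

lemma card_petals (T : Finset (L × I)) (hT : ∀ α ∈ T, Val b c α) :
    (insert (ln b c g) (T.biUnion (pl g b c))).card = 1 + 2 * T.card := by
  rw [card_insert_of_notMem, card_biUnion]
  · rw [sum_congr rfl fun α hα => pl_card hbc (hT α hα)]
    simp
    ring
  · intro α hα β hβ hne
    exact pl_disj hbc (hT α hα) (hT β hβ) hne
  · rw [mem_biUnion]
    rintro ⟨α, hα, h⟩
    exact l_notMem hbc (hT α hα) h

/-- The additional line at the first petal. -/
lemma ext_notMem {α β : L × I} {ξ : L} (hα : Val b c α) (hβ : Val b c β) (hne : α.2 ≠ β.2)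
    (hξ : ξ ≠ g s(α.2, β.2)) {δ : L × I} (hδ : Val b c δ) :
    ln b α.2 (update (update g s(b, c) α.1) s(α.2, β.2) ξ) ∉ pl g b c δ := by
  unfold pl
  simp only [mem_insert, mem_singleton, not_or]
  have hm1 : s(α.2, β.2) ≠ s(b, α.2) := by
    intro h
    rw [Sym2.eq_iff] at h
    rcases h with h | h
    · exact hα.1 h.1
    · exact hβ.1 h.2
  have hm2 : s(α.2, β.2) ≠ s(b, c) := by
    intro h
    rw [Sym2.eq_iff] at h
    rcases h with h | h
    · exact hα.1 h.1
    · exact hα.2 h.1
  constructor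
  · intro h
    rw [ln_eq hα.1.symm hδ.1.symm] at h
    have h2 := h.2 s(α.2, β.2) hm1
    rw [update_self, update_of_ne hm2] at h2
    exact hξ h2
  · intro h
    rw [ln_eq hα.1.symm hδ.2.symm] at h
    rcases h.1 with h1 | h1
    · exact hbc h1.1
    · exact hδ.1 h1.1.symm

lemma ext_ne_l {α : L × I} (hα : Val b c α) (h : Sym2 I → L) : ln b α.2 h ≠ ln b c g := by
  intro hcon
  rw [ln_eq hα.1.symm hbc] at hcon
  rcases hcon.1 with h1 | h1
  · exact hα.2 h1.2
  · exact hbc h1.1

lemma card_petals_ext (T : Finset (L × I)) (hT : ∀ α ∈ T, Val b c α) {α β : L × I} {ξ : L}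
    (hα : Val b c α) (hβ : Val b c β) (hne : α.2 ≠ β.2) (hξ : ξ ≠ g s(α.2, β.2)) :
    (insert (ln b α.2 (update (update g s(b, c) α.1) s(α.2, β.2) ξ))
      (insert (ln b β.2 (update (update g s(b, c) β.1) s(α.2, β.2) ξ))
        (insert (ln b c g) (T.biUnion (pl g b c))))).card = 3 + 2 * T.card := by
  rw [card_insert_of_notMem, card_insert_of_notMem, card_petals hbc T hT]
  · ring
  · rw [mem_insert, mem_biUnion, not_or]
    refine ⟨ext_ne_l hbc hβ _, ?_⟩
    rintro ⟨δ, hδ, h⟩
    have hs : s(α.2, β.2) = s(β.2, α.2) := Sym2.eq_swap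
    rw [hs] at h hξ
    exact ext_notMem hbc hβ hα hne.symm hξ (hT δ hδ) h
  · rw [mem_insert, mem_insert, mem_biUnion, not_or, not_or]
    refine ⟨?_, ext_ne_l hbc hα _, ?_⟩
    · exact ln_ne hα.1.symm hβ.1.symm hne _ _
    · rintro ⟨δ, hδ, h⟩
      exact ext_notMem hbc hα hβ hne hξ (hT δ hδ) h

end

end Pool.Agent.K6.H30.Folk
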