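import Pool.Agent.K6.H30.Conf

set_option autoImplicit false
set_option linter.all false

/-!
# The existence of the graph
-/

namespace Pool.Agent.K6.H30.Folk

open Finset Function Pool.Agent.K6.H30.Prob

variable {I L : Type} [Fintype I] [LinearOrder I] [Fintype L] [DecidableEq L] [Inhabited L]

/-- The property of an arrowing choice of the lines. -/
def Arr (x : Sym2 (I × (Sym2 I → L)) → Bool) : Prop :=
  ∀ σ : Sym2 (I × (Sym2 I → L)) → Bool,
    ¬ ∀ P Q R, (Gr x).Adj P Q → (Gr x).Adj Q R → (Gr x).Adj P R →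
      ¬ (σ s(P, Q) = σ s(P, R) ∧ σ s(P, R) = σ s(Q, R))

theorem exists_Arr {p l : ℝ} (h0 : 0 ≤ p) (h1 : p ≤ 1) (hl : 0 < l) (hl1 : 2 * l ≤ 1)
    (hI : (2 : ℝ) ≤ Fintype.card I)
    (hnum : 0 < ((Fintype.card I : ℝ) - 2) * p ^ 3 / 3 -
      8 * (((Fintype.card I : ℝ) - 2) * bnd ((Fintype.card I : ℝ) - 2) (Fintype.card L) p) -
      p * p - 2 * l * p * (((Fintype.card I : ℝ) - 2) * p ^ 2) -
      Real.log 2 / (l * Fintype.card L) * p) :
    ∃ x : Sym2 (I × (Sym2 I → L)) → Bool, Arr x := by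
  set Φ : (Sym2 (I × (Sym2 I → L)) → Bool) → ℝ := fun x =>
    (1 / 3) * TR x - 8 * KC x - p * W x - 2 * l * p * U x -
      Real.log 2 / (l * Fintype.card L) * W x - (1 / l) * ∑ i, ∑ P, (A p l i P x - 1) with hΦ
  have hN : (0 : ℝ) < Fintype.card (Sym2 I → L) := by exact_mod_cast Fintype.card_pos
  have hEx : 0 < Ex p Φ := by
    have e1 : Ex p Φ = (1 / 3) * Ex p (fun x => TR (I := I) (L := L) x) -
        8 * Ex p (fun x => KC (I := I) (L := L) x) - p * Ex p (fun x => W (I := I) (L := L) x) -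
        2 * l * p * Ex p (fun x => U (I := I) (L := L) x) -
        Real.log 2 / (l * Fintype.card L) * Ex p (fun x => W (I := I) (L := L) x) -
        (1 / l) * ∑ i : I, ∑ P : I × (Sym2 I → L), (Ex p (fun x => A p l i P x) - 1) := by
      simp only [hΦ, Ex_sub, Ex_mul_left, Ex_sum, Ex_const]
    have e2 : ∑ i : I, ∑ P : I × (Sym2 I → L), (Ex p (fun x => A p l i P x) - 1) ≤ 0 := by
      apply sum_nonpos; intro i _
      apply sum_nonpos; intro P _
      have := Ex_A_le_one (p := p) (l := l) h0 h1 hl.le hl1 i P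
      linarith
    have e3 : (1 / l) * ∑ i : I, ∑ P : I × (Sym2 I → L), (Ex p (fun x => A p l i P x) - 1) ≤ 0 :=
      mul_nonpos_of_nonneg_of_nonpos (by positivity) e2
    have e4 := Ex_KC (I := I) (L := L) h0 h1 hI
    rw [e1, Ex_TR, Ex_W, Ex_U]
    have e5 : 0 < (Fintype.card (Sym2 I → L) : ℝ) * (Fintype.card I * (Fintype.card I - 1)) *
      (((Fintype.card I : ℝ) - 2) * p ^ 3 / 3 -
      8 * (((Fintype.card I : ℝ) - 2) * bnd ((Fintype.card I : ℝ) - 2) (Fintype.card L) p) -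
      p * p - 2 * l * p * (((Fintype.card I : ℝ) - 2) * p ^ 2) -
      Real.log 2 / (l * Fintype.card L) * p) := by
      apply mul_pos _ hnum
      apply mul_pos hN
      apply mul_pos <;> linarith
    nlinarith [e3, e4, e5]
  obtain ⟨x, hx⟩ := exists_pos_of_Ex_pos h0 h1 hEx
  refine ⟨x, ?_⟩
  intro σ hσ
  have t1 := TS_le hσ
  have t2 := neg_TS_le (p := p) (l := l) h0 hl x σ
  simp only [hΦ] at hx
  linarith

theorem exists_graph : ∃ (I L : Type) (_ : Fintype I) (_ : LinearOrder I) (_ : Fintype L)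
    (_ : DecidableEq L) (_ : Inhabited L) (x : Sym2 (I × (Sym2 I → L)) → Bool), Arr x := by
  obtain ⟨r, hr⟩ : ∃ r : ℕ, r = 12 * 10 ^ 20 + 2 := ⟨_, rfl⟩
  obtain ⟨q, hq⟩ : ∃ q : ℕ, q = 10 ^ 25 := ⟨_, rfl⟩
  have hq0 : 0 < q := by rw [hq]; positivity
  haveI : NeZero q := ⟨hq0.ne'⟩
  refine ⟨Fin r, Fin q, inferInstance, inferInstance, inferInstance, inferInstance, ⟨0⟩, ?_⟩
  have hrR : (r : ℝ) = 12 * 10 ^ 20 + 2 := by rw [hr]; push_cast; ring
  have hqR : (q : ℝ) = 10 ^ 25 := by rw [hq]; push_cast; ring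
  have hlog : Real.log 2 ≤ 1 := by
    have := Real.log_two_lt_d9
    linarith
  letI : Inhabited (Fin q) := ⟨0⟩
  apply exists_Arr (p := 1 / 10 ^ 20) (l := 1 / 24) (by positivity) (by norm_num) (by norm_num)
    (by norm_num)
  · rw [Fintype.card_fin, hrR]
    norm_num
  · rw [Fintype.card_fin, Fintype.card_fin, hrR, hqR]
    have h2 : Real.log 2 / (1 / 24 * 10 ^ 25) * (1 / 10 ^ 20) ≤ 1 / (1 / 24 * 10 ^ 25) * (1 / 10 ^ 20) := by
      gcongr
    have h3 : 1 / (1 / 24 * 10 ^ 25) * (1 / 10 ^ 20) < ((12 * 10 ^ 20 + 2 : ℝ) - 2) * (1 / 10 ^ 20) ^ 3 / 3 -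
      8 * (((12 * 10 ^ 20 + 2 : ℝ) - 2) * bnd ((12 * 10 ^ 20 + 2 : ℝ) - 2) (10 ^ 25) (1 / 10 ^ 20)) -
      (1 / 10 ^ 20) * (1 / 10 ^ 20) - 2 * (1 / 24) * (1 / 10 ^ 20) * (((12 * 10 ^ 20 + 2 : ℝ) - 2) * (1 / 10 ^ 20) ^ 2) := by
      unfold bnd
      norm_num
    linarith

theorem transfer {V : Type} [Fintype V] (H : SimpleGraph V)
    (hfree : ∀ P0 P1 P2 P3 P4 : V, P0 ≠ P1 → P2 ≠ P3 → P3 ≠ P4 → H.Adj P0 P2 → H.Adj P0 P3 →
      H.Adj P0 P4 → H.Adj P1 P2 → H.Adj P1 P3 → H.Adj P1 P4 → H.Adj P2 P4 → False)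
    (harr : ∀ σ : Sym2 V → Bool, ¬ ∀ P Q R, H.Adj P Q → H.Adj Q R → H.Adj P R →
      ¬ (σ s(P, Q) = σ s(P, R) ∧ σ s(P, R) = σ s(Q, R))) :
    ∃ n : ℕ, ∃ G : SimpleGraph (Fin n),
      (∀ c : Fin n → Fin n → Bool, (∀ x y : Fin n, G.Adj x y → c x y = c y x) →
        ∃ x y z : Fin n,
          G.Adj x y ∧ G.Adj y z ∧ G.Adj x z ∧
          c x y = c y z ∧ c y z = c x z) ∧
      ¬ ∃ f : Fin 5 → Fin n, Function.Injective f ∧
        ∀ i j : Fin 5, i ≠ j →
          ¬ ((i = 0 ∧ j = 1) ∨ (i = 1 ∧ j = 0) ∨ (i = 2 ∧ j = 3) ∨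
             (i = 3 ∧ j = 2) ∨ (i = 3 ∧ j = 4) ∨ (i = 4 ∧ j = 3)) →
          G.Adj (f i) (f j) := by
  classical
  set e : V ≃ Fin (Fintype.card V) := Fintype.equivFin V with he
  refine ⟨Fintype.card V, SimpleGraph.comap e.symm H, ?_, ?_⟩
  · intro c hc
    by_contra hcon
    push Not at hcon
    set σ : Sym2 V → Bool := fun s => decide (∃ P R, s = s(P, R) ∧ H.Adj P R ∧ c (e P) (e R) = true)
      with hσ
    have hc' : ∀ P R, H.Adj P R → c (e P) (e R) = c (e R) (e P) := by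
      intro P R h
      apply hc
      simp only [SimpleGraph.comap_adj, Equiv.symm_apply_apply]
      exact h
    have hσc : ∀ P R, H.Adj P R → σ s(P, R) = c (e P) (e R) := by
      intro P R h
      cases hcc : c (e P) (e R) with
      | true =>
        simp only [hσ, decide_eq_true_eq]
        exact ⟨P, R, rfl, h, hcc⟩
      | false =>
        simp only [hσ, decide_eq_false_iff_not]
        rintro ⟨P', R', hs, h', hcc'⟩
        rw [Sym2.eq_iff] at hs
        rcases hs with ⟨rfl, rfl⟩ | ⟨rfl, rfl⟩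
        · rw [hcc] at hcc'
          exact absurd hcc' (by simp)
        · rw [hc' _ _ h', hcc] at hcc'
          exact absurd hcc' (by simp)
    apply harr σ
    intro P Q R h1 h2 h3
    rw [hσc P Q h1, hσc Q R h2, hσc P R h3]
    rintro ⟨h4, h5⟩
    have h6 := hcon (e P) (e Q) (e R)
    simp only [SimpleGraph.comap_adj, Equiv.symm_apply_apply] at h6
    exact h6 h1 h2 h3 (h4.trans h5) h5.symm
  · rintro ⟨f, hf, hadj⟩
    have hne : ∀ i j : Fin 5, i ≠ j → e.symm (f i) ≠ e.symm (f j) := by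
      intro i j hij h
      exact hij (hf (e.symm.injective h))
    have ha : ∀ i j : Fin 5, i ≠ j →
          ¬ ((i = 0 ∧ j = 1) ∨ (i = 1 ∧ j = 0) ∨ (i = 2 ∧ j = 3) ∨
             (i = 3 ∧ j = 2) ∨ (i = 3 ∧ j = 4) ∨ (i = 4 ∧ j = 3)) →
          H.Adj (e.symm (f i)) (e.symm (f j)) := fun i j h1 h2 => hadj i j h1 h2
    exact hfree (e.symm (f 0)) (e.symm (f 1)) (e.symm (f 2)) (e.symm (f 3)) (e.symm (f 4))
      (hne 0 1 (by decide)) (hne 2 3 (by decide)) (hne 3 4 (by decide))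
      (ha 0 2 (by decide) (by decide)) (ha 0 3 (by decide) (by decide))
      (ha 0 4 (by decide) (by decide)) (ha 1 2 (by decide) (by decide))
      (ha 1 3 (by decide) (by decide)) (ha 1 4 (by decide) (by decide))
      (ha 2 4 (by decide) (by decide))

theorem main : ∃ n : ℕ, ∃ G : SimpleGraph (Fin n),
      (∀ c : Fin n → Fin n → Bool, (∀ x y : Fin n, G.Adj x y → c x y = c y x) →
        ∃ x y z : Fin n,
          G.Adj x y ∧ G.Adj y z ∧ G.Adj x z ∧
          c x y = c y z ∧ c y z = c x z) ∧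
      ¬ ∃ f : Fin 5 → Fin n, Function.Injective f ∧
        ∀ i j : Fin 5, i ≠ j →
          ¬ ((i = 0 ∧ j = 1) ∨ (i = 1 ∧ j = 0) ∨ (i = 2 ∧ j = 3) ∨
             (i = 3 ∧ j = 2) ∨ (i = 3 ∧ j = 4) ∨ (i = 4 ∧ j = 3)) →
          G.Adj (f i) (f j) := by
  obtain ⟨I, L, _, _, _, _, _, x, hx⟩ := exists_graph
  apply transfer (Gr x)
  · intro P0 P1 P2 P3 P4
    exact no_H0 x
  · exact hx

end Pool.Agent.K6.H30.Folk
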