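import Pool.Agent.K6.H30.Local

set_option autoImplicit false
set_option linter.all false

/-!
# Summing over all vertices
-/

namespace Pool.Agent.K6.H30.Folk

open Finset Function Pool.Agent.K6.H30.Prob

variable {I L : Type} [Fintype I] [LinearOrder I] [Fintype L] [DecidableEq L] [Inhabited L]

/-- The sum over all corners of all chosen triangles of the products of the two signs. -/
noncomputable def TS (x σ : Sym2 (I × (Sym2 I → L)) → Bool) : ℝ :=
  ∑ g : Sym2 I → L, ∑ i, ∑ j, ∑ k, d3 i j k * (X x (ln i j g) * X x (ln i k g) * X x (ln j k g) *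
    (sg (σ (ln i j g)) * sg (σ (ln i k g))))

/-- The number of the chosen triangles (with an order of the vertices). -/
noncomputable def TR (x : Sym2 (I × (Sym2 I → L)) → Bool) : ℝ :=
  ∑ g : Sym2 I → L, ∑ i, ∑ j, ∑ k, d3 i j k * (X x (ln i j g) * X x (ln i k g) * X x (ln j k g))

/-- The number of the chosen lines of the blocks. -/
noncomputable def W (x : Sym2 (I × (Sym2 I → L)) → Bool) : ℝ :=
  ∑ g : Sym2 I → L, ∑ i, ∑ j, d2 i j * X x (ln i j g)

/-- The number of the chosen pairs of adjacent lines of the blocks. -/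
noncomputable def U (x : Sym2 (I × (Sym2 I → L)) → Bool) : ℝ :=
  ∑ g : Sym2 I → L, ∑ i, ∑ j, ∑ k, d3 i j k * (X x (ln i j g) * X x (ln i k g))

lemma d3_eq (i j k : I) : d3 i j k = d2 i j * d2 i k - (if j = k then d2 i j * d2 i k else 0) := by
  unfold d3 d2
  by_cases h1 : i ≠ j
  · by_cases h2 : i ≠ k
    · by_cases h3 : j = k
      · simp [h1, h2, h3]
      · simp [h1, h2, h3]
    · push Not at h2
      simp [h2]
  · push Not at h1
    simp [h1]

lemma corner_lower (x σ : Sym2 (I × (Sym2 I → L)) → Bool) (g : Sym2 I → L) (i : I) :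
    -∑ j, ∑ k, d3 i j k * (X x (ln i j g) * X x (ln i k g) *
      (sg (σ (ln i j g)) * sg (σ (ln i k g)))) ≤ ∑ j, d2 i j * X x (ln i j g) := by
  set b : I → ℝ := fun j => d2 i j * X x (ln i j g) * sg (σ (ln i j g)) with hb
  have h1 : ∀ j k, d3 i j k * (X x (ln i j g) * X x (ln i k g) *
      (sg (σ (ln i j g)) * sg (σ (ln i k g)))) = b j * b k - (if j = k then b j * b k else 0) := by
    intro j k
    rw [d3_eq, hb]
    by_cases h : j = k
    · simp only [if_pos h]; ring
    · simp only [if_neg h]; ring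
  have h2 : ∀ j, b j * b j = d2 i j * X x (ln i j g) := by
    intro j
    rw [hb]
    have e1 := sg_sq (σ (ln i j g))
    have e2 := X_mul_self x (ln i j g)
    have e3 : d2 i j * d2 i j = d2 i j := by unfold d2; split_ifs <;> norm_num
    calc d2 i j * X x (ln i j g) * sg (σ (ln i j g)) * (d2 i j * X x (ln i j g) * sg (σ (ln i j g)))
        = (d2 i j * d2 i j) * (X x (ln i j g) * X x (ln i j g)) *
          (sg (σ (ln i j g)) * sg (σ (ln i j g))) := by ring
      _ = _ := by rw [e1, e2, e3, mul_one]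
  simp only [h1]
  have h3 : ∑ j, ∑ k, (b j * b k - (if j = k then b j * b k else 0)) =
      (∑ j, b j) * (∑ k, b k) - ∑ j, b j * b j := by
    rw [sum_mul_sum, ← sum_sub_distrib]
    apply sum_congr rfl
    intro j _
    rw [sum_sub_distrib]
    simp
  rw [h3]
  simp only [h2]
  nlinarith [mul_self_nonneg (∑ j, b j)]

lemma sum_fib (i : I) (F : (Sym2 I → L) → ℝ) :
    ∑ P : I × (Sym2 I → L), ∑ g ∈ fib i P, F g = ∑ g, F g := by
  unfold fib
  exact sum_fiberwise _ _ _

lemma sum_Z (p : ℝ) (i : I) (x σ : Sym2 (I × (Sym2 I → L)) → Bool) :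
    ∑ P, Z p i P x σ = ∑ g, ∑ j, ∑ k, d3 i j k * (X x (ln i j g) * X x (ln i k g) *
    (-(sg (σ (ln i j g)) * sg (σ (ln i k g)) * (X x (ln j k g) - p)))) := by
  unfold Z
  exact sum_fib i _

lemma sum_Q (i : I) (x : Sym2 (I × (Sym2 I → L)) → Bool) :
    ∑ P, Q i P x = ∑ g, ∑ j, ∑ k, d3 i j k * (X x (ln i j g) * X x (ln i k g)) := by
  unfold Q
  exact sum_fib i _

lemma sum_S (i : I) (x : Sym2 (I × (Sym2 I → L)) → Bool) :
    (Fintype.card L : ℝ) * ∑ P, ((S i P x).card : ℝ) ≤ ∑ g, ∑ j, d2 i j * X x (ln i j g) := by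
  rw [mul_sum, ← sum_fib i]
  exact sum_le_sum fun P _ => S_card_le i P x

lemma neg_TS_le {p l : ℝ} (h0 : 0 ≤ p) (hl : 0 < l) (x σ : Sym2 (I × (Sym2 I → L)) → Bool) :
    -TS x σ ≤ p * W x + 2 * l * p * U x + Real.log 2 / (l * Fintype.card L) * W x +
      (1 / l) * ∑ i, ∑ P, (A p l i P x - 1) := by
  have hL : (0 : ℝ) < Fintype.card L := by exact_mod_cast Fintype.card_pos
  have hW : W x = ∑ i, ∑ g, ∑ j, d2 i j * X x (ln i j g) := by unfold W; rw [sum_comm]
  have hU : U x = ∑ i, ∑ g, ∑ j, ∑ k, d3 i j k * (X x (ln i j g) * X x (ln i k g)) := by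
    unfold U; rw [sum_comm]
  have h1 : -TS x σ = ∑ i, (p * ∑ g, -∑ j, ∑ k, d3 i j k * (X x (ln i j g) * X x (ln i k g) *
      (sg (σ (ln i j g)) * sg (σ (ln i k g)))) + ∑ P, Z p i P x σ) := by
    unfold TS
    rw [sum_comm, ← sum_neg_distrib]
    apply sum_congr rfl
    intro i _
    rw [sum_Z, mul_sum, ← sum_add_distrib, ← sum_neg_distrib]
    apply sum_congr rfl
    intro g _
    rw [mul_neg, mul_sum, ← sum_neg_distrib, ← sum_neg_distrib, ← sum_add_distrib]
    apply sum_congr rfl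
    intro j _
    rw [mul_sum, ← sum_neg_distrib, ← sum_neg_distrib, ← sum_add_distrib]
    apply sum_congr rfl
    intro k _
    ring
  have h2 : ∀ i : I, p * ∑ g : Sym2 I → L, -∑ j, ∑ k, d3 i j k * (X x (ln i j g) * X x (ln i k g) *
      (sg (σ (ln i j g)) * sg (σ (ln i k g)))) ≤ p * ∑ g, ∑ j, d2 i j * X x (ln i j g) := by
    intro i
    apply mul_le_mul_of_nonneg_left _ h0
    exact sum_le_sum fun g _ => corner_lower x σ g i
  have h3 : ∀ i : I, ∑ P, Z p i P x σ ≤ 2 * l * p * ∑ g, ∑ j, ∑ k, d3 i j k *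
      (X x (ln i j g) * X x (ln i k g)) + Real.log 2 / (l * Fintype.card L) *
      ∑ g, ∑ j, d2 i j * X x (ln i j g) + (1 / l) * ∑ P, (A p l i P x - 1) := by
    intro i
    have e1 : ∑ P, Z p i P x σ ≤ ∑ P, (1 / l) * (2 * l ^ 2 * p * Q i P x +
        (S i P x).card * Real.log 2 + (A p l i P x - 1)) := by
      apply sum_le_sum
      intro P _
      have := Z_le (p := p) (l := l) i P x σ
      rw [one_div, inv_mul_eq_div, le_div_iff₀ hl]
      linarith
    refine e1.trans ?_
    have e2 : ∑ P, (1 / l) * (2 * l ^ 2 * p * Q i P x +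
        (S i P x).card * Real.log 2 + (A p l i P x - 1)) =
        2 * l * p * ∑ P, Q i P x + Real.log 2 / l * ∑ P, ((S i P x).card : ℝ) +
        (1 / l) * ∑ P, (A p l i P x - 1) := by
      rw [mul_sum, mul_sum, mul_sum, ← sum_add_distrib, ← sum_add_distrib]
      apply sum_congr rfl
      intro P _
      field_simp
    rw [e2, sum_Q]
    have e3 := sum_S (L := L) i x
    have e4 : ∀ s t : ℝ, (Fintype.card L : ℝ) * s ≤ t →
        Real.log 2 / l * s ≤ Real.log 2 / (l * Fintype.card L) * t := by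
      intro s t hst
      have e5 : Real.log 2 / l * s = Real.log 2 / (l * Fintype.card L) *
          ((Fintype.card L : ℝ) * s) := by
        field_simp
      rw [e5]
      apply mul_le_mul_of_nonneg_left hst
      have : 0 ≤ Real.log 2 := Real.log_nonneg (by norm_num)
      positivity
    have e6 := e4 _ _ e3
    exact add_le_add (add_le_add le_rfl e6) le_rfl
  rw [h1]
  have h4 := sum_le_sum (fun (i : I) (_ : i ∈ univ) => add_le_add (h2 i) (h3 i))
  refine h4.trans (le_of_eq ?_)
  rw [hW, hU]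
  rw [mul_sum, mul_sum, mul_sum, mul_sum, ← sum_add_distrib, ← sum_add_distrib, ← sum_add_distrib]
  apply sum_congr rfl
  intro i _
  ring

end Pool.Agent.K6.H30.Folk
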