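import Pool.Agent.K6.H30.Global

set_option autoImplicit false
set_option linter.all false

/-!
# The graph of the chosen good lines
-/

namespace Pool.Agent.K6.H30.Folk

open Finset Function Pool.Agent.K6.H30.Prob

variable {I L : Type} [Fintype I] [LinearOrder I] [Fintype L] [DecidableEq L] [Inhabited L]

/-- Both lines of the petal `α` at the line `(b, c)` of the block `g` are chosen. -/
def Yp (x : Sym2 (I × (Sym2 I → L)) → Bool) (g : Sym2 I → L) (b c : I) (α : L × I) : Prop :=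
  x (ln b α.2 (update g s(b, c) α.1)) = true ∧ x (ln c α.2 (update g s(b, c) α.1)) = true

/-- The two lines from the tips of two petals to another vertex of type `b` are chosen. -/
def Ep (x : Sym2 (I × (Sym2 I → L)) → Bool) (g : Sym2 I → L) (b c : I) (α β : L × I) (ξ : L) : Prop :=
  x (ln b α.2 (update (update g s(b, c) α.1) s(α.2, β.2) ξ)) = true ∧
    x (ln b β.2 (update (update g s(b, c) β.1) s(α.2, β.2) ξ)) = true

/-- The line `(b, c)` of the block `g` is bad. -/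
def Bd0 (x : Sym2 (I × (Sym2 I → L)) → Bool) (g : Sym2 I → L) (b c : I) : Prop :=
  ∃ α β : L × I, (α.2 ≠ b ∧ α.2 ≠ c ∧ β.2 ≠ b ∧ β.2 ≠ c ∧ α ≠ β) ∧ Yp x g b c α ∧ Yp x g b c β ∧
    ((α.1 = β.1 ∨ α.2 = β.2) ∨ (α.2 ≠ β.2 ∧ ∃ ξ, ξ ≠ g s(α.2, β.2) ∧ Ep x g b c α β ξ))

/-- The line `(b, c)` of the block `g` is bad, in one of the two orders. -/
def Bd (x : Sym2 (I × (Sym2 I → L)) → Bool) (g : Sym2 I → L) (b c : I) : Prop :=
  Bd0 x g b c ∨ Bd0 x g c b

/-- The graph of the chosen good lines. -/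
def Gr (x : Sym2 (I × (Sym2 I → L)) → Bool) : SimpleGraph (I × (Sym2 I → L)) where
  Adj P R := ∃ i j g, i ≠ j ∧ P = u i g ∧ R = u j g ∧ x (ln i j g) = true ∧ ¬ Bd x g i j
  symm := ⟨by
    rintro P R ⟨i, j, g, h1, h2, h3, h4, h5⟩
    exact ⟨j, i, g, h1.symm, h3, h2, by rw [ln_comm]; exact h4, fun h => h5 h.symm⟩⟩
  loopless := ⟨by
    rintro P ⟨i, j, g, h1, h2, h3, h4, h5⟩
    exact h1 (u_eq'.1 (h2.symm.trans h3)).1⟩

lemma tip {x : Sym2 (I × (Sym2 I → L)) → Bool} {g : Sym2 I → L} {b c : I} (hbc : b ≠ c)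
    {P : I × (Sym2 I → L)} (h1 : (Gr x).Adj P (u b g)) (h2 : (Gr x).Adj P (u c g)) :
    ∃ α : L × I, α.2 ≠ b ∧ α.2 ≠ c ∧ P = u α.2 (update g s(b, c) α.1) ∧ Yp x g b c α := by
  obtain ⟨a, b', h, hab, hP, hb, hx, -⟩ := h1
  obtain ⟨a', c', h', hac, hP', hc, hx', -⟩ := h2
  obtain ⟨rfl, hb2⟩ := u_eq'.1 hb
  obtain ⟨rfl, hc2⟩ := u_eq'.1 hc
  obtain ⟨rfl, ha⟩ := u_eq'.1 (hP.symm.trans hP')
  have hPu : P = u a (update g s(b, c) (h s(b, c))) := by
    rw [hP, u_eq]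
    intro m hm
    by_cases hmm : m = s(b, c)
    · rw [hmm, update_self]
    · rw [update_of_ne hmm]
      rcases notMem_or hbc hmm with h3 | h3
      · exact (hb2 m h3).symm
      · rw [ha m hm, hc2 m h3]
  refine ⟨(h s(b, c), a), hab, hac, hPu, ?_, ?_⟩
  · have e1 : ln b a (update g s(b, c) (h s(b, c))) = ln a b h := by
      unfold ln
      rw [← hPu, ← hP, u_update (by simp), hb, Sym2.eq_swap]
    simp only
    rw [e1]
    exact hx
  · have e1 : ln c a (update g s(b, c) (h s(b, c))) = ln a c h' := by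
      unfold ln
      rw [← hPu, ← hP', u_update (by simp), hc, Sym2.eq_swap]
    simp only
    rw [e1]
    exact hx'

lemma third_aux {x : Sym2 (I × (Sym2 I → L)) → Bool} {g : Sym2 I → L} {b c : I} (hbc : b ≠ c)
    {α β : L × I} (hα : α.2 ≠ b ∧ α.2 ≠ c) (hβ : β.2 ≠ b ∧ β.2 ≠ c) (hαβ : α.2 ≠ β.2)
    {h h' : Sym2 I → L} (h1 : u α.2 (update g s(b, c) α.1) = u α.2 h)
    (h2 : u β.2 (update g s(b, c) β.1) = u β.2 h') (h3 : u b h = u b h')
    (hx : x (ln α.2 b h) = true) (hx' : x (ln β.2 b h') = true)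
    (hne : u b h ≠ u b g) : ∃ ξ, ξ ≠ g s(α.2, β.2) ∧ Ep x g b c α β ξ := by
  have e1 := u_eq.1 h1
  have e2 := u_eq.1 h2
  have e3 := u_eq.1 h3
  have hbm : ∀ m, b ∉ m → m ≠ s(b, c) := by
    rintro m hm rfl
    simp at hm
  have hh : u b h = u b (update g s(α.2, β.2) (h s(α.2, β.2))) := by
    rw [u_eq]
    intro m hm
    by_cases hmm : m = s(α.2, β.2)
    · rw [hmm, update_self]
    · rw [update_of_ne hmm]
      rcases notMem_or hαβ hmm with h4 | h4
      · rw [← e1 m h4, update_of_ne (hbm m hm)]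
      · rw [e3 m hm, ← e2 m h4, update_of_ne (hbm m hm)]
  refine ⟨h s(α.2, β.2), ?_, ?_, ?_⟩
  · intro hcon
    apply hne
    rw [hh, hcon, update_eq_self]
  · have e4 : ln b α.2 (update (update g s(b, c) α.1) s(α.2, β.2) (h s(α.2, β.2))) = ln α.2 b h := by
      rw [ln_comm]
      unfold ln
      rw [u_update (by simp), h1]
      have hcomm : update (update g s(b, c) α.1) s(α.2, β.2) (h s(α.2, β.2)) =
          update (update g s(α.2, β.2) (h s(α.2, β.2))) s(b, c) α.1 := by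
        rw [update_comm]
        intro hcon
        have : b ∈ s(α.2, β.2) := by rw [← hcon]; simp
        simp only [Sym2.mem_iff] at this
        rcases this with h5 | h5
        · exact hα.1 h5.symm
        · exact hβ.1 h5.symm
      rw [hcomm, u_update (by simp), hh]
    rw [e4]
    exact hx
  · have e4 : ln b β.2 (update (update g s(b, c) β.1) s(α.2, β.2) (h s(α.2, β.2))) = ln β.2 b h' := by
      rw [ln_comm]
      unfold ln
      rw [u_update (by simp), h2]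
      have hcomm : update (update g s(b, c) β.1) s(α.2, β.2) (h s(α.2, β.2)) =
          update (update g s(α.2, β.2) (h s(α.2, β.2))) s(b, c) β.1 := by
        rw [update_comm]
        intro hcon
        have : b ∈ s(α.2, β.2) := by rw [← hcon]; simp
        simp only [Sym2.mem_iff] at this
        rcases this with h5 | h5
        · exact hα.1 h5.symm
        · exact hβ.1 h5.symm
      rw [hcomm, u_update (by simp), ← hh, h3]
    rw [e4]
    exact hx'

/-- The graph has no triangle-with-common-neighbour configuration `H₀`. -/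
theorem no_H0 (x : Sym2 (I × (Sym2 I → L)) → Bool) {P0 P1 P2 P3 P4 : I × (Sym2 I → L)}
    (h01 : P0 ≠ P1) (h23 : P2 ≠ P3) (h34 : P3 ≠ P4)
    (a02 : (Gr x).Adj P0 P2) (a03 : (Gr x).Adj P0 P3) (a04 : (Gr x).Adj P0 P4)
    (a12 : (Gr x).Adj P1 P2) (a13 : (Gr x).Adj P1 P3) (a14 : (Gr x).Adj P1 P4)
    (a24 : (Gr x).Adj P2 P4) : False := by
  obtain ⟨b, c, g, hbc, rfl, rfl, hx, hgood⟩ := a24
  obtain ⟨α, hα1, hα2, hP0, hYα⟩ := tip hbc a02 a04
  obtain ⟨β, hβ1, hβ2, hP1, hYβ⟩ := tip hbc a12 a14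
  have hαβ : α ≠ β := by
    rintro rfl
    exact h01 (hP0.trans hP1.symm)
  by_cases hcase : α.1 = β.1 ∨ α.2 = β.2
  · exact hgood (Or.inl ⟨α, β, ⟨hα1, hα2, hβ1, hβ2, hαβ⟩, hYα, hYβ, Or.inl hcase⟩)
  push Not at hcase
  obtain ⟨hc1, hc2⟩ := hcase
  obtain ⟨i, f, h, hif, hi, hf, hx3, -⟩ := a03
  obtain ⟨i', f', h', hif', hi', hf', hx3', -⟩ := a13
  obtain ⟨rfl, hi2⟩ := u_eq'.1 (hP0.symm.trans hi)
  obtain ⟨rfl, hi2'⟩ := u_eq'.1 (hP1.symm.trans hi')
  obtain ⟨rfl, hff⟩ := u_eq'.1 (hf.symm.trans hf')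
  have hfbc : f = b ∨ f = c := by
    by_contra hcon
    push Not at hcon
    have m1 : α.2 ∉ s(b, c) := by simp [hα1, hα2]
    have m2 : β.2 ∉ s(b, c) := by simp [hβ1, hβ2]
    have m3 : f ∉ s(b, c) := by simp [hcon.1, hcon.2]
    have e1 := hi2 _ m1
    have e2 := hi2' _ m2
    have e3 := hff _ m3
    rw [update_self] at e1 e2
    exact hc1 (e1.trans (e3.trans e2.symm))
  rcases hfbc with rfl | rfl
  · apply hgood
    left
    refine ⟨α, β, ⟨hα1, hα2, hβ1, hβ2, hαβ⟩, hYα, hYβ, Or.inr ⟨hc2, ?_⟩⟩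
    apply third_aux hbc ⟨hα1, hα2⟩ ⟨hβ1, hβ2⟩ hc2 (h := h) (h' := h') (u_eq.2 hi2) (u_eq.2 hi2')
      (u_eq.2 hff) hx3 hx3'
    rw [← hf]
    exact h23.symm
  · apply hgood
    right
    have hs : s(b, f) = s(f, b) := Sym2.eq_swap
    have hYα' : Yp x g f b α := by
      unfold Yp at hYα ⊢
      rw [← hs]
      exact ⟨hYα.2, hYα.1⟩
    have hYβ' : Yp x g f b β := by
      unfold Yp at hYβ ⊢
      rw [← hs]
      exact ⟨hYβ.2, hYβ.1⟩
    refine ⟨α, β, ⟨hα2, hα1, hβ2, hβ1, hαβ⟩, hYα', hYβ', Or.inr ⟨hc2, ?_⟩⟩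
    rw [hs] at hi2 hi2'
    apply third_aux hbc.symm ⟨hα2, hα1⟩ ⟨hβ2, hβ1⟩ hc2 (h := h) (h' := h') (u_eq.2 hi2) (u_eq.2 hi2')
      (u_eq.2 hff) hx3 hx3'
    rw [← hf]
    exact h34

end Pool.Agent.K6.H30.Folk
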