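import Pool.Agent.K6.H30.Struct

set_option autoImplicit false
set_option linter.all false

/-!
# The inequality at one vertex
-/

namespace Pool.Agent.K6.H30.Folk

open Finset Function Pool.Agent.K6.H30.Prob

variable {I L : Type} [Fintype I] [LinearOrder I] [Fintype L] [DecidableEq L] [Inhabited L]

/-- The indicator of the event that two types are distinct. -/
def d2 (i j : I) : ℝ := if i ≠ j then 1 else 0

lemma d2_nonneg (i j : I) : 0 ≤ d2 i j := by unfold d2; split_ifs <;> norm_num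

/-- Signs. -/
def sg (b : Bool) : ℝ := if b then 1 else -1

lemma sg_sq (b : Bool) : sg b * sg b = 1 := by unfold sg; split_ifs <;> norm_num

lemma sg_abs (b : Bool) : |sg b| = 1 := by unfold sg; split_ifs <;> norm_num

lemma sum_sym (G : I → I → ℝ) (hs : ∀ j k, G j k = G k j) (h0 : ∀ j, G j j = 0) :
    ∑ j, ∑ k, G j k = 2 * ∑ p ∈ (univ : Finset (I × I)).filter (fun p => p.1 < p.2), G p.1 p.2 := by
  have h1 : ∑ j, ∑ k, G j k = ∑ p : I × I, G p.1 p.2 := by
    rw [Fintype.sum_prod_type]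
  have h2 : ∑ p : I × I, G p.1 p.2 = ∑ p : I × I, (if p.1 < p.2 then G p.1 p.2 else 0) +
      ∑ p : I × I, (if p.2 < p.1 then G p.1 p.2 else 0) := by
    rw [← sum_add_distrib]
    apply sum_congr rfl
    rintro ⟨j, k⟩ _
    rcases lt_trichotomy j k with h | h | h
    · simp [h, not_lt_of_gt h]
    · subst h; simp [h0]
    · simp [h, not_lt_of_gt h]
  have h3 : ∑ p : I × I, (if p.2 < p.1 then G p.1 p.2 else 0) =
      ∑ p : I × I, (if p.1 < p.2 then G p.1 p.2 else 0) := by
    rw [← Equiv.sum_comp (Equiv.prodComm I I)]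
    apply sum_congr rfl
    rintro ⟨j, k⟩ _
    simp [hs k j]
  rw [h1, h2, h3, sum_filter]
  ring

/-- The blocks through the vertex `P` of type `i`. -/
noncomputable def fib (i : I) (P : I × (Sym2 I → L)) : Finset (Sym2 I → L) :=
  univ.filter fun g => u i g = P

lemma mem_fib {i : I} {P : I × (Sym2 I → L)} {g : Sym2 I → L} : g ∈ fib i P ↔ u i g = P := by
  simp [fib]

/-- The fluctuation at the vertex `P`. -/
noncomputable def Z (p : ℝ) (i : I) (P : I × (Sym2 I → L)) (x : Sym2 (I × (Sym2 I → L)) → Bool)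
    (σ : Sym2 (I × (Sym2 I → L)) → Bool) : ℝ :=
  ∑ g ∈ fib i P, ∑ j, ∑ k, d3 i j k * (X x (ln i j g) * X x (ln i k g) *
    (-(sg (σ (ln i j g)) * sg (σ (ln i k g)) * (X x (ln j k g) - p))))

/-- The number of the pairs of chosen lines through `P` in one block. -/
noncomputable def Q (i : I) (P : I × (Sym2 I → L)) (x : Sym2 (I × (Sym2 I → L)) → Bool) : ℝ :=
  ∑ g ∈ fib i P, ∑ j, ∑ k, d3 i j k * (X x (ln i j g) * X x (ln i k g))

/-- The index set for the product. -/
noncomputable def TT (i : I) (P : I × (Sym2 I → L)) : Finset ((Sym2 I → L) × (I × I)) :=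
  (fib i P) ×ˢ ((univ : Finset (I × I)).filter (fun p => p.1 < p.2 ∧ i ≠ p.1 ∧ i ≠ p.2))

/-- The factors. -/
noncomputable def phi (p l : ℝ) (i : I) (σ : Sym2 (I × (Sym2 I → L)) → Bool)
    (t : (Sym2 I → L) × (I × I)) (x : Sym2 (I × (Sym2 I → L)) → Bool) (b : Bool) : ℝ :=
  Real.exp (2 * (X x (ln i t.2.1 t.1) * X x (ln i t.2.2 t.1) *
    (-(l * (sg (σ (ln i t.2.1 t.1)) * sg (σ (ln i t.2.2 t.1)) * ((if b then 1 else 0) - p)))
      - 2 * l ^ 2 * p)))

lemma exponent_eq (p l : ℝ) (i : I) (P : I × (Sym2 I → L)) (x σ : Sym2 (I × (Sym2 I → L)) → Bool) :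
    l * Z p i P x σ - 2 * l ^ 2 * p * Q i P x = ∑ t ∈ TT i P, 2 * (X x (ln i t.2.1 t.1) *
      X x (ln i t.2.2 t.1) * (-(l * (sg (σ (ln i t.2.1 t.1)) * sg (σ (ln i t.2.2 t.1)) *
      (X x (ln t.2.1 t.2.2 t.1) - p))) - 2 * l ^ 2 * p)) := by
  unfold Z Q TT
  rw [sum_product, mul_sum, mul_sum, ← sum_sub_distrib]
  apply sum_congr rfl
  intro g _
  have h1 := sum_sym (I := I) (fun j k => d3 i j k * (X x (ln i j g) * X x (ln i k g) *
    (-(l * (sg (σ (ln i j g)) * sg (σ (ln i k g)) * (X x (ln j k g) - p))) - 2 * l ^ 2 * p)))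
    (fun j k => by rw [d3_swap2, ln_comm j k]; ring)
    (fun j => by simp [d3])
  have h2 : l * ∑ j, ∑ k, d3 i j k * (X x (ln i j g) * X x (ln i k g) *
      (-(sg (σ (ln i j g)) * sg (σ (ln i k g)) * (X x (ln j k g) - p)))) -
      2 * l ^ 2 * p * ∑ j, ∑ k, d3 i j k * (X x (ln i j g) * X x (ln i k g)) =
      ∑ j, ∑ k, d3 i j k * (X x (ln i j g) * X x (ln i k g) *
    (-(l * (sg (σ (ln i j g)) * sg (σ (ln i k g)) * (X x (ln j k g) - p))) - 2 * l ^ 2 * p)) := by
    simp only [mul_sum]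
    rw [← sum_sub_distrib]
    apply sum_congr rfl
    intro j _
    rw [← sum_sub_distrib]
    apply sum_congr rfl
    intro k _
    ring
  rw [h2, h1, mul_sum]
  rw [sum_filter, sum_filter]
  apply sum_congr rfl
  rintro ⟨j, k⟩ _
  simp only
  by_cases hjk : j < k
  · by_cases h3 : i ≠ j ∧ i ≠ k
    · have : d3 i j k = 1 := by simp [d3, h3.1, h3.2, hjk.ne]
      rw [if_pos hjk, if_pos ⟨hjk, h3⟩, this, one_mul]
    · have : d3 i j k = 0 := by
        unfold d3
        rw [if_neg]
        rintro ⟨a, b, _⟩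
        exact h3 ⟨a, b⟩
      rw [if_pos hjk, if_neg (fun h => h3 h.2), this]
      ring
  · rw [if_neg hjk, if_neg (fun h => hjk h.1)]

lemma X_update_ne {E : Type} [DecidableEq E] {x : E → Bool} {e e' : E} (b : Bool) (h : e ≠ e') :
    X (update x e' b) e = X x e := by
  unfold X
  rw [update_of_ne h]

lemma Ex_exp_le_one {p l : ℝ} (h0 : 0 ≤ p) (h1 : p ≤ 1) (hl : 0 ≤ l) (hl1 : 2 * l ≤ 1) (i : I)
    (P : I × (Sym2 I → L)) (σ : Sym2 (I × (Sym2 I → L)) → Bool) :
    Ex p (fun x => Real.exp (l * Z p i P x σ - 2 * l ^ 2 * p * Q i P x)) ≤ 1 := by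
  have h2 : ∀ x : Sym2 (I × (Sym2 I → L)) → Bool,
      Real.exp (l * Z p i P x σ - 2 * l ^ 2 * p * Q i P x) =
      ∏ t ∈ TT i P, phi p l i σ t x (x (ln t.2.1 t.2.2 t.1)) := by
    intro x
    rw [exponent_eq, Real.exp_sum]
    rfl
  simp only [h2]
  apply Ex_prod_le_one h0 h1 (TT i P) (fun t => ln t.2.1 t.2.2 t.1) (phi p l i σ)
  · rintro ⟨g, j, k⟩ ht ⟨g', j', k'⟩ ht' h
    simp only [TT, coe_product, Set.mem_prod, mem_coe, mem_fib, mem_filter, mem_univ, true_and] at ht ht'
    obtain ⟨hg, hjk, hij, hik⟩ := ht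
    obtain ⟨hg', hjk', hij', hik'⟩ := ht'
    simp only at h
    rw [ln_eq hjk.ne hjk'.ne] at h
    obtain ⟨h3, h4⟩ := h
    have h5 : j = j' ∧ k = k' := by
      rcases h3 with h3 | ⟨rfl, rfl⟩
      · exact h3
      · exact absurd hjk' (not_lt_of_gt hjk)
    obtain ⟨rfl, rfl⟩ := h5
    have h6 : g = g' := by
      funext m
      by_cases hm : m = s(j, k)
      · have h7 := u_eq.1 (hg.trans hg'.symm)
        apply h7
        rw [hm]
        simp [hij, hik]
      · exact h4 m hm
    rw [h6]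
  · intro t x b
    exact (Real.exp_pos _).le
  · rintro ⟨g, j, k⟩ ht ⟨g', j', k'⟩ ht' x b c
    simp only [TT, mem_product, mem_fib, mem_filter, mem_univ, true_and] at ht ht'
    obtain ⟨hg, hjk, hij, hik⟩ := ht
    obtain ⟨hg', hjk', hij', hik'⟩ := ht'
    have hne : ∀ a, i ≠ a → ln i a g ≠ ln j' k' g' := by
      intro a ha h
      rw [ln_eq ha hjk'.ne] at h
      rcases h.1 with h | h
      · exact hij' h.1
      · exact hik' h.1
    unfold phi
    simp only
    rw [X_update_ne b (hne j hij), X_update_ne b (hne k hik)]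
  · rintro ⟨g, j, k⟩ ht x
    unfold phi
    simp only
    have h3 : X x (ln i j g) * X x (ln i k g) = 0 ∨ X x (ln i j g) * X x (ln i k g) = 1 := by
      rcases X_eq_zero_or_one x (ln i j g) with h | h <;>
        rcases X_eq_zero_or_one x (ln i k g) with h' | h' <;> simp [h, h']
    rcases h3 with h3 | h3
    · rw [h3]
      simp
    · rw [h3]
      set c : ℝ := -(2 * l * (sg (σ (ln i j g)) * sg (σ (ln i k g)))) with hc
      have hss : (sg (σ (ln i j g)) * sg (σ (ln i k g))) ^ 2 = 1 := by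
        rw [mul_pow, sq, sq, sg_sq, sg_sq, one_mul]
      have hcsq : c ^ 2 = 4 * l ^ 2 := by
        rw [hc, neg_sq, mul_pow, hss]; ring
      have hcabs : |c| ≤ 1 := by
        rw [hc, abs_neg, abs_mul, abs_mul (sg _), sg_abs, sg_abs, abs_of_nonneg (by linarith)]
        linarith
      have h4 := mgf h0 h1 hcabs
      have e1 : Real.exp (2 * (1 * (-(l * (sg (σ (ln i j g)) * sg (σ (ln i k g)) *
          (1 - p))) - 2 * l ^ 2 * p))) =
          Real.exp (c * (1 - p)) * Real.exp (-(4 * l ^ 2 * p)) := by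
        rw [← Real.exp_add]
        congr 1
        rw [hc]; ring
      have e2 : Real.exp (2 * (1 * (-(l * (sg (σ (ln i j g)) * sg (σ (ln i k g)) *
          (0 - p))) - 2 * l ^ 2 * p))) =
          Real.exp (c * (0 - p)) * Real.exp (-(4 * l ^ 2 * p)) := by
        rw [← Real.exp_add]
        congr 1
        rw [hc]; ring
      simp only [if_true, Bool.false_eq_true, if_false]
      rw [e1, e2]
      have h5 : Real.exp (c ^ 2 * p) * Real.exp (-(4 * l ^ 2 * p)) = 1 := by
        rw [← Real.exp_add, hcsq]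
        simp
      have h6 : 0 < Real.exp (-(4 * l ^ 2 * p)) := Real.exp_pos _
      calc p * (Real.exp (c * (1 - p)) * Real.exp (-(4 * l ^ 2 * p))) +
          (1 - p) * (Real.exp (c * (0 - p)) * Real.exp (-(4 * l ^ 2 * p))) =
          (p * Real.exp (c * (1 - p)) + (1 - p) * Real.exp (c * (0 - p))) *
            Real.exp (-(4 * l ^ 2 * p)) := by ring
        _ ≤ Real.exp (c ^ 2 * p) * Real.exp (-(4 * l ^ 2 * p)) :=
          mul_le_mul_of_nonneg_right h4 h6.le
        _ = 1 := h5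

/-- The average over the signs. -/
noncomputable def A (p l : ℝ) (i : I) (P : I × (Sym2 I → L)) (x : Sym2 (I × (Sym2 I → L)) → Bool) : ℝ :=
  Ex (1 / 2) (fun σ => Real.exp (l * Z p i P x σ - 2 * l ^ 2 * p * Q i P x))

lemma Ex_A_le_one {p l : ℝ} (h0 : 0 ≤ p) (h1 : p ≤ 1) (hl : 0 ≤ l) (hl1 : 2 * l ≤ 1) (i : I)
    (P : I × (Sym2 I → L)) : Ex p (fun x => A p l i P x) ≤ 1 := by
  have h2 : Ex p (fun x => A p l i P x) =
      Ex (1 / 2) (fun σ => Ex p (fun x => Real.exp (l * Z p i P x σ - 2 * l ^ 2 * p * Q i P x))) := by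
    unfold A
    unfold Ex
    simp only [mul_sum]
    rw [sum_comm]
    apply sum_congr rfl
    intro y _
    apply sum_congr rfl
    intro z _
    ring
  rw [h2]
  have h3 := Ex_mono (p := 1 / 2) (by norm_num) (by norm_num)
    (fun σ => Ex_exp_le_one (L := L) h0 h1 hl hl1 i P σ)
  rw [Ex_const] at h3
  exact h3

open Classical in
/-- The chosen lines through `P`. -/
noncomputable def S (i : I) (P : I × (Sym2 I → L)) (x : Sym2 (I × (Sym2 I → L)) → Bool) :
    Finset (Sym2 (I × (Sym2 I → L))) :=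
  univ.filter fun e => x e = true ∧ ∃ j g, i ≠ j ∧ u i g = P ∧ e = ln i j g

lemma Z_congr {p : ℝ} {i : I} {P : I × (Sym2 I → L)} {x σ τ : Sym2 (I × (Sym2 I → L)) → Bool}
    (h : ∀ e ∈ S i P x, σ e = τ e) : Z p i P x σ = Z p i P x τ := by
  unfold Z
  apply sum_congr rfl
  intro g hg
  rw [mem_fib] at hg
  apply sum_congr rfl
  intro j _
  apply sum_congr rfl
  intro k _
  by_cases h3 : i ≠ j ∧ i ≠ k ∧ j ≠ k
  · by_cases hj : x (ln i j g) = true
    · by_cases hk : x (ln i k g) = true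
      · have e1 : σ (ln i j g) = τ (ln i j g) := by
          apply h
          simp only [S, mem_filter, mem_univ, true_and]
          exact ⟨hj, j, g, h3.1, hg, rfl⟩
        have e2 : σ (ln i k g) = τ (ln i k g) := by
          apply h
          simp only [S, mem_filter, mem_univ, true_and]
          exact ⟨hk, k, g, h3.2.1, hg, rfl⟩
        rw [e1, e2]
      · have : X x (ln i k g) = 0 := by simp [X, hk]
        rw [this]; ring
    · have : X x (ln i j g) = 0 := by simp [X, hj]
      rw [this]; ring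
  · have : d3 i j k = 0 := by unfold d3; rw [if_neg h3]
    rw [this]; ring

lemma Z_le {p l : ℝ} (i : I) (P : I × (Sym2 I → L)) (x σ : Sym2 (I × (Sym2 I → L)) → Bool) :
    l * Z p i P x σ ≤ 2 * l ^ 2 * p * Q i P x + (S i P x).card * Real.log 2 + (A p l i P x - 1) := by
  set c : ℝ := l * Z p i P x σ - 2 * l ^ 2 * p * Q i P x with hc
  have h1 : (1 / 2 : ℝ) ^ (S i P x).card * Real.exp c ≤ A p l i P x := by
    have h2 := Ex_prod_subset (1 / 2 : ℝ) (S i P x) (fun e b => if b = σ e then 1 else 0)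
    have h3 : ∏ e ∈ S i P x, ((1 / 2 : ℝ) * (if true = σ e then 1 else 0) +
        (1 - 1 / 2) * (if false = σ e then 1 else 0)) = (1 / 2 : ℝ) ^ (S i P x).card := by
      rw [← prod_const]
      apply prod_congr rfl
      intro e _
      cases σ e <;> norm_num
    rw [h3] at h2
    rw [← h2, mul_comm, ← Ex_mul_left]
    unfold A
    apply Ex_mono (by norm_num) (by norm_num)
    intro τ
    by_cases hτ : ∀ e ∈ S i P x, τ e = σ e
    · rw [prod_eq_one (fun e he => by rw [if_pos (hτ e he)]), mul_one, hc, Z_congr hτ]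
    · push Not at hτ
      obtain ⟨e, he, hne⟩ := hτ
      rw [prod_eq_zero he (by rw [if_neg hne]), mul_zero]
      exact (Real.exp_pos _).le
  have h4 : (1 / 2 : ℝ) ^ (S i P x).card = Real.exp (-((S i P x).card * Real.log 2)) := by
    rw [Real.exp_neg, mul_comm, Real.exp_mul, Real.exp_log (by norm_num), Real.rpow_natCast,
      one_div, inv_pow]
  rw [h4, ← Real.exp_add] at h1
  have h5 := Real.add_one_le_exp (-((S i P x).card * Real.log 2) + c)
  linarith

lemma S_card_le (i : I) (P : I × (Sym2 I → L)) (x : Sym2 (I × (Sym2 I → L)) → Bool) :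
    (Fintype.card L : ℝ) * (S i P x).card ≤ ∑ g ∈ fib i P, ∑ j, d2 i j * X x (ln i j g) := by
  classical
  have h1 : ∑ g ∈ fib i P, ∑ j, d2 i j * X x (ln i j g) =
      (((fib i P) ×ˢ (univ : Finset I)).filter (fun t => i ≠ t.2 ∧ x (ln i t.2 t.1) = true)).card := by
    rw [card_filter, Nat.cast_sum, sum_product]
    apply sum_congr rfl
    intro g _
    apply sum_congr rfl
    intro j _
    unfold d2 X
    by_cases h1 : i ≠ j
    · by_cases h2 : x (ln i j g) = true
      · simp [h1, h2]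
      · simp [h1, h2]
    · simp [h1]
  rw [h1, mul_comm]
  norm_cast
  rw [← Finset.card_univ (α := L), ← card_product]
  have hch : ∀ e : Sym2 (I × (Sym2 I → L)), ∃ t : (Sym2 I → L) × I, e ∈ S i P x →
      i ≠ t.2 ∧ u i t.1 = P ∧ e = ln i t.2 t.1 ∧ x e = true := by
    intro e
    by_cases he : e ∈ S i P x
    · simp only [S, mem_filter, mem_univ, true_and] at he
      obtain ⟨hx, j, g, h1, h2, h3⟩ := he
      exact ⟨(g, j), fun _ => ⟨h1, h2, h3, hx⟩⟩
    · exact ⟨(fun _ => default, i), fun h => absurd h he⟩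
  choose t ht using hch
  apply card_le_card_of_injOn (fun es => (update (t es.1).1 s(i, (t es.1).2) es.2, (t es.1).2))
  · rintro ⟨e, s⟩ hes
    simp only [coe_product, Set.mem_prod, mem_coe, mem_univ, and_true] at hes
    obtain ⟨h1, h2, h3, h4⟩ := ht e hes
    simp only [mem_coe, mem_filter, mem_product, mem_fib, mem_univ, and_true]
    refine ⟨?_, h1, ?_⟩
    · rw [u_update (by simp), h2]
    · rw [ln_update, ← h3]
      exact h4
  · rintro ⟨e, s⟩ hes ⟨e', s'⟩ hes' h
    simp only [coe_product, Set.mem_prod, mem_coe, mem_univ, and_true] at hes hes'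
    obtain ⟨h1, h2, h3, h4⟩ := ht e hes
    obtain ⟨h1', h2', h3', h4'⟩ := ht e' hes'
    simp only [Prod.mk.injEq] at h
    obtain ⟨h5, h6⟩ := h
    have h7 : e = e' := by
      have e1 : ln i (t e).2 (update (t e).1 s(i, (t e).2) s) =
          ln i (t e').2 (update (t e').1 s(i, (t e').2) s') := by rw [h5, h6]
      rw [ln_update, ln_update, ← h3, ← h3'] at e1
      exact e1
    subst h7
    have h8 := congrFun h5 s(i, (t e).2)
    rw [update_self, update_self] at h8
    rw [h8]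

end Pool.Agent.K6.H30.Folk
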