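import Mathlib

set_option autoImplicit false
set_option linter.all false

/-!
# A finite product space of independent Bernoulli variables
-/

namespace Pool.Agent.K6.H30.Prob

open Finset Function

variable {E : Type*} [Fintype E] [DecidableEq E]

/-- The probability of the value `b` of a Bernoulli variable with parameter `p`. -/
noncomputable def wt (p : ℝ) (b : Bool) : ℝ := if b then p else 1 - p

/-- The expectation over the product space. -/
noncomputable def Ex (p : ℝ) (F : (E → Bool) → ℝ) : ℝ := ∑ x : E → Bool, (∏ e, wt p (x e)) * F x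

lemma wt_nonneg {p : ℝ} (h0 : 0 ≤ p) (h1 : p ≤ 1) (b : Bool) : 0 ≤ wt p b := by
  unfold wt; split_ifs <;> linarith

lemma Ex_mono {p : ℝ} (h0 : 0 ≤ p) (h1 : p ≤ 1) {F G : (E → Bool) → ℝ} (h : ∀ x, F x ≤ G x) :
    Ex p F ≤ Ex p G := by
  unfold Ex
  apply sum_le_sum
  intro x _
  exact mul_le_mul_of_nonneg_left (h x) (prod_nonneg fun e _ => wt_nonneg h0 h1 _)

lemma Ex_add (p : ℝ) (F G : (E → Bool) → ℝ) : Ex p (fun x => F x + G x) = Ex p F + Ex p G := by
  unfold Ex; rw [← sum_add_distrib]; exact sum_congr rfl fun x _ => by ring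

lemma Ex_sub (p : ℝ) (F G : (E → Bool) → ℝ) : Ex p (fun x => F x - G x) = Ex p F - Ex p G := by
  unfold Ex; rw [← sum_sub_distrib]; exact sum_congr rfl fun x _ => by ring

lemma Ex_mul_left (p c : ℝ) (F : (E → Bool) → ℝ) : Ex p (fun x => c * F x) = c * Ex p F := by
  unfold Ex; rw [mul_sum]; exact sum_congr rfl fun x _ => by ring

lemma Ex_sum (p : ℝ) {ι : Type*} (s : Finset ι) (F : ι → (E → Bool) → ℝ) :
    Ex p (fun x => ∑ i ∈ s, F i x) = ∑ i ∈ s, Ex p (F i) := by
  unfold Ex
  rw [sum_comm]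
  exact sum_congr rfl fun x _ => by rw [mul_sum]

lemma Ex_prod (p : ℝ) (ψ : E → Bool → ℝ) :
    Ex p (fun x => ∏ e, ψ e (x e)) = ∏ e, (p * ψ e true + (1 - p) * ψ e false) := by
  unfold Ex
  have h : ∀ e : E, p * ψ e true + (1 - p) * ψ e false = ∑ b : Bool, wt p b * ψ e b := by
    intro e; simp [wt]
  simp only [h]
  rw [Finset.prod_univ_sum]
  simp only [Fintype.piFinset_univ]
  exact sum_congr rfl fun x _ => by rw [← prod_mul_distrib]

lemma Ex_const (p c : ℝ) : Ex p (fun _ : E → Bool => c) = c := by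
  have h := Ex_prod (E := E) p (fun _ _ => 1)
  simp only [prod_const_one, mul_one, add_sub_cancel] at h
  have h2 := Ex_mul_left (E := E) p c (fun _ => 1)
  simp only [mul_one] at h2
  rw [h2, h, mul_one]

/-- Product over a subset. -/
lemma Ex_prod_subset (p : ℝ) (S : Finset E) (ψ : E → Bool → ℝ) :
    Ex p (fun x => ∏ e ∈ S, ψ e (x e)) = ∏ e ∈ S, (p * ψ e true + (1 - p) * ψ e false) := by
  have h := Ex_prod p (fun e b => if e ∈ S then ψ e b else 1)
  have h1 : ∀ x : E → Bool, ∏ e, (if e ∈ S then ψ e (x e) else 1) = ∏ e ∈ S, ψ e (x e) := by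
    intro x; rw [prod_ite_mem, univ_inter]
  simp only [h1] at h
  rw [h]
  rw [← Finset.prod_subset (subset_univ S)]
  · exact prod_congr rfl fun e he => by simp [he]
  · intro e _ he; simp [he]

/-- The indicator of the event that `e` is chosen. -/
noncomputable def X (x : E → Bool) (e : E) : ℝ := if x e then 1 else 0

lemma X_nonneg (x : E → Bool) (e : E) : 0 ≤ X x e := by unfold X; split_ifs <;> norm_num
lemma X_le_one (x : E → Bool) (e : E) : X x e ≤ 1 := by unfold X; split_ifs <;> norm_num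
lemma X_mul_self (x : E → Bool) (e : E) : X x e * X x e = X x e := by unfold X; split_ifs <;> norm_num
lemma X_eq_zero_or_one (x : E → Bool) (e : E) : X x e = 0 ∨ X x e = 1 := by
  unfold X; split_ifs <;> norm_num

lemma X_true {x : E → Bool} {e : E} (h : x e = true) : X x e = 1 := by simp [X, h]

lemma Ex_X_prod (p : ℝ) (S : Finset E) : Ex p (fun x => ∏ e ∈ S, X x e) = p ^ S.card := by
  have h := Ex_prod_subset p S (fun _ b => if b then 1 else 0)
  simp only [X]
  rw [h]
  simp

lemma X_mul_prod (x : E → Bool) (e : E) (S : Finset E) :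
    X x e * ∏ e ∈ S, X x e = ∏ e ∈ insert e S, X x e := by
  by_cases he : e ∈ S
  · rw [insert_eq_of_mem he, ← mul_prod_erase S _ he, ← mul_assoc, X_mul_self]
  · rw [prod_insert he]

/-- Resampling one coordinate. -/
lemma Ex_resample (p : ℝ) (e : E) (F : (E → Bool) → ℝ) :
    Ex p F = Ex p (fun x => p * F (update x e true) + (1 - p) * F (update x e false)) := by
  unfold Ex
  have key : ∀ G : (E → Bool) → ℝ, ∑ x : E → Bool, (∏ e, wt p (x e)) * G x =
      ∑ y : {j // j ≠ e} → Bool, (∏ j, wt p (y j)) *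
        (p * G ((Equiv.funSplitAt e Bool).symm (true, y)) +
          (1 - p) * G ((Equiv.funSplitAt e Bool).symm (false, y))) := by
    intro G
    rw [← Equiv.sum_comp (Equiv.funSplitAt e Bool).symm, Fintype.sum_prod_type_right]
    apply sum_congr rfl
    intro y _
    have h1 : ∀ b : Bool, ∏ j, wt p ((Equiv.funSplitAt e Bool).symm (b, y) j) =
        wt p b * ∏ j : {j // j ≠ e}, wt p (y j) := by
      intro b
      rw [Fintype.prod_eq_mul_prod_subtype_ne _ e]
      congr 1
      · simp [Equiv.funSplitAt, Equiv.piSplitAt]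
      · apply prod_congr rfl
        intro j _
        have := j.2
        simp [Equiv.funSplitAt, Equiv.piSplitAt, this]
    rw [Fintype.sum_bool, h1, h1]
    simp only [wt]
    simp
    ring
  rw [key F, key]
  apply sum_congr rfl
  intro y _
  have h2 : ∀ b c : Bool, update ((Equiv.funSplitAt e Bool).symm (b, y)) e c =
      (Equiv.funSplitAt e Bool).symm (c, y) := by
    intro b c
    funext j
    by_cases hj : j = e
    · subst hj; simp [Equiv.funSplitAt, Equiv.piSplitAt]
    · simp [Equiv.funSplitAt, Equiv.piSplitAt, hj]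
  simp only [h2]
  ring

lemma Ex_prod_le_one {p : ℝ} (h0 : 0 ≤ p) (h1 : p ≤ 1) {ι : Type*} [DecidableEq ι] (T : Finset ι)
    (e : ι → E) (φ : ι → (E → Bool) → Bool → ℝ) (hinj : Set.InjOn e T)
    (hφ : ∀ t x b, 0 ≤ φ t x b)
    (hdep : ∀ t ∈ T, ∀ t' ∈ T, ∀ x b c, φ t (update x (e t') b) c = φ t x c)
    (hle : ∀ t ∈ T, ∀ x, p * φ t x true + (1 - p) * φ t x false ≤ 1) :
    Ex p (fun x => ∏ t ∈ T, φ t x (x (e t))) ≤ 1 := by
  induction T using Finset.induction_on with
  | empty => simp [Ex_const]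
  | insert t0 T ht0 ih =>
    have ih' := ih (hinj.mono (by simp)) (fun t ht t' ht' => hdep t (mem_insert_of_mem ht) t'
      (mem_insert_of_mem ht')) (fun t ht => hle t (mem_insert_of_mem ht))
    refine le_trans ?_ ih'
    rw [Ex_resample p (e t0)]
    apply Ex_mono h0 h1
    intro x
    have hne : ∀ t ∈ T, e t ≠ e t0 := by
      intro t ht h
      have := hinj (mem_coe.2 (mem_insert_of_mem ht)) (mem_coe.2 (mem_insert_self t0 T)) h
      exact ht0 (this ▸ ht)
    have h3 : ∀ b : Bool, ∏ t ∈ insert t0 T, φ t (update x (e t0) b) (update x (e t0) b (e t)) =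
        φ t0 x b * ∏ t ∈ T, φ t x (x (e t)) := by
      intro b
      rw [prod_insert ht0]
      congr 1
      · rw [hdep t0 (mem_insert_self _ _) t0 (mem_insert_self _ _), update_self]
      · apply prod_congr rfl
        intro t ht
        rw [hdep t (mem_insert_of_mem ht) t0 (mem_insert_self _ _),
          update_of_ne (hne t ht)]
    rw [h3, h3]
    have h4 : 0 ≤ ∏ t ∈ T, φ t x (x (e t)) := prod_nonneg fun t _ => hφ _ _ _
    have h5 := hle t0 (mem_insert_self _ _) x
    nlinarith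

lemma exists_pos_of_Ex_pos {p : ℝ} (h0 : 0 ≤ p) (h1 : p ≤ 1) {F : (E → Bool) → ℝ}
    (h : 0 < Ex p F) : ∃ x, 0 < F x := by
  by_contra hcon
  push Not at hcon
  have := Ex_mono h0 h1 (G := fun _ => 0) hcon
  rw [Ex_const] at this
  linarith

lemma mgf {p c : ℝ} (h0 : 0 ≤ p) (h1 : p ≤ 1) (hc : |c| ≤ 1) :
    p * Real.exp (c * (1 - p)) + (1 - p) * Real.exp (c * (0 - p)) ≤ Real.exp (c ^ 2 * p) := by
  have e1 : ∀ t : ℝ, |t| ≤ 1 → Real.exp t ≤ 1 + t + t ^ 2 := by
    intro t ht
    have := Real.abs_exp_sub_one_sub_id_le ht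
    rw [abs_le] at this
    linarith [this.2]
  have ha : |c * (1 - p)| ≤ 1 := by
    rw [abs_mul, abs_of_nonneg (by linarith : 0 ≤ 1 - p)]
    nlinarith [abs_nonneg c]
  have hb : |c * (0 - p)| ≤ 1 := by
    rw [abs_mul, zero_sub, abs_neg, abs_of_nonneg h0]
    nlinarith [abs_nonneg c]
  have h2 := e1 _ ha
  have h3 := e1 _ hb
  have h4 := Real.add_one_le_exp (c ^ 2 * p)
  have h5 : p * (1 + c * (1 - p) + (c * (1 - p)) ^ 2) + (1 - p) * (1 + c * (0 - p) + (c * (0 - p)) ^ 2)
      = 1 + c ^ 2 * (p * (1 - p)) := by ring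
  have h6 : c ^ 2 * (p * (1 - p)) ≤ c ^ 2 * p := by
    apply mul_le_mul_of_nonneg_left _ (sq_nonneg c)
    nlinarith
  have h7 := mul_le_mul_of_nonneg_left h2 h0
  have h8 := mul_le_mul_of_nonneg_left h3 (by linarith : 0 ≤ 1 - p)
  linarith

end Pool.Agent.K6.H30.Prob
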