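import Pool.Agent.K6.H30.Prob

set_option autoImplicit false
set_option linter.all false

/-!
# The blow-up of a complete graph

The blocks are the functions `g` from the unordered pairs of types to the labels. The vertex of type
`i` of the block `g` remembers the labels of the pairs which do not contain `i`.
-/

namespace Pool.Agent.K6.H30.Folk

open Finset Function Pool.Agent.K6.H30.Prob

variable {I L : Type} [Fintype I] [LinearOrder I] [Fintype L] [DecidableEq L] [Inhabited L]

/-- The vertex of type `i` of the block `g`. -/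
def u (i : I) (g : Sym2 I → L) : I × (Sym2 I → L) := (i, fun m => if i ∈ m then default else g m)

/-- The pair of the vertices of types `i` and `j` of the block `g`. -/
def ln (i j : I) (g : Sym2 I → L) : Sym2 (I × (Sym2 I → L)) := s(u i g, u j g)

lemma ln_comm (i j : I) (g : Sym2 I → L) : ln i j g = ln j i g := Sym2.eq_swap

lemma u_eq {i : I} {g h : Sym2 I → L} : u i g = u i h ↔ ∀ m, i ∉ m → g m = h m := by
  unfold u
  constructor
  · intro H m hm
    have := congrFun (Prod.ext_iff.1 H).2 m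
    simpa [hm] using this
  · intro H
    ext1
    · rfl
    · funext m
      by_cases hm : i ∈ m
      · simp [hm]
      · simp [hm, H m hm]

lemma u_eq' {i j : I} {g h : Sym2 I → L} : u i g = u j h ↔ i = j ∧ ∀ m, i ∉ m → g m = h m := by
  constructor
  · intro H
    have h1 : i = j := (Prod.ext_iff.1 H).1
    subst h1
    exact ⟨rfl, u_eq.1 H⟩
  · rintro ⟨rfl, H⟩
    exact u_eq.2 H

lemma u_update {i : I} {m : Sym2 I} (hm : i ∈ m) (g : Sym2 I → L) (s : L) :
    u i (update g m s) = u i g := by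
  rw [u_eq]
  intro m' hm'
  have : m' ≠ m := fun h => hm' (h ▸ hm)
  rw [update_of_ne this]

lemma notMem_or {i j : I} (hij : i ≠ j) {m : Sym2 I} (hm : m ≠ s(i, j)) : i ∉ m ∨ j ∉ m := by
  by_contra hcon
  push Not at hcon
  exact hm ((Sym2.mem_and_mem_iff hij).1 hcon)

lemma ln_eq {i j k l : I} (hij : i ≠ j) (hkl : k ≠ l) {g h : Sym2 I → L} :
    ln i j g = ln k l h ↔ ((i = k ∧ j = l) ∨ (i = l ∧ j = k)) ∧ ∀ m, m ≠ s(i, j) → g m = h m := by
  unfold ln
  rw [Sym2.eq_iff]
  simp only [u_eq']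
  constructor
  · rintro (⟨⟨rfl, h1⟩, rfl, h2⟩ | ⟨⟨rfl, h1⟩, rfl, h2⟩)
    · refine ⟨Or.inl ⟨rfl, rfl⟩, fun m hm => ?_⟩
      rcases notMem_or hij hm with h3 | h3
      · exact h1 m h3
      · exact h2 m h3
    · refine ⟨Or.inr ⟨rfl, rfl⟩, fun m hm => ?_⟩
      rcases notMem_or hij hm with h3 | h3
      · exact h1 m h3
      · exact h2 m h3
  · have hne : ∀ m, (i ∉ m ∨ j ∉ m) → m ≠ s(i, j) := by
      rintro m hm rfl
      simp at hm
    rintro ⟨⟨rfl, rfl⟩ | ⟨rfl, rfl⟩, H⟩
    · exact Or.inl ⟨⟨rfl, fun m hm => H m (hne m (Or.inl hm))⟩, rfl, fun m hm => H m (hne m (Or.inr hm))⟩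
    · exact Or.inr ⟨⟨rfl, fun m hm => H m (hne m (Or.inl hm))⟩, rfl, fun m hm => H m (hne m (Or.inr hm))⟩

lemma ln_update {i j : I} (g : Sym2 I → L) (s : L) : ln i j (update g s(i, j) s) = ln i j g := by
  unfold ln
  rw [u_update (by simp), u_update (by simp)]

/-- The indicator of the event that three types are distinct. -/
def d3 (i j k : I) : ℝ := if i ≠ j ∧ i ≠ k ∧ j ≠ k then 1 else 0

lemma d3_nonneg (i j k : I) : 0 ≤ d3 i j k := by unfold d3; split_ifs <;> norm_num

lemma d3_swap1 (i j k : I) : d3 i j k = d3 j i k := by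
  unfold d3
  congr 1
  apply propext
  constructor
  · rintro ⟨h1, h2, h3⟩; exact ⟨h1.symm, h3, h2⟩
  · rintro ⟨h1, h2, h3⟩; exact ⟨h1.symm, h3, h2⟩

lemma d3_swap2 (i j k : I) : d3 i j k = d3 i k j := by
  unfold d3
  congr 1
  apply propext
  constructor
  · rintro ⟨h1, h2, h3⟩; exact ⟨h2, h1, h3.symm⟩
  · rintro ⟨h1, h2, h3⟩; exact ⟨h2, h1, h3.symm⟩

end Pool.Agent.K6.H30.Folk
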